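import Mathlib
import Pool.Agent.TH170.MF.Defs

/-!
# The bounds for the proportions of the types with one or two relations: definitions
-/

set_option autoImplicit false

namespace Pool.Agent.L7h85.HN

open Pool.Agent.TH170.MF

/-- The sum of the numbers `N d * (2 d / (π g)) ^ (d / 2)` over all `1 ≤ d ≤ g`, where `N d` is the
number of the minimal Galois-stable spaces of dimension `d` of odd rational functions on the
embeddings of `K`. -/
noncomputable def boundOne (K : Type) [Field K] (g : ℕ) : ℝ :=
  ∑ d ∈ Finset.Icc 1 g, (numSpaces K d : ℝ) * √(2 * d / (Real.pi * g)) ^ d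

/-- The number `binomial (N 1, 2) * 4 / (π g)`, plus the sum of the numbers
`N d * (2 d / (π g)) ^ (d / 2)` over all `2 ≤ d ≤ g`. -/
noncomputable def boundTwo (K : Type) [Field K] (g : ℕ) : ℝ :=
  ((numSpaces K 1).choose 2 : ℝ) * (4 / (Real.pi * g)) +
    ∑ d ∈ Finset.Icc 2 g, (numSpaces K d : ℝ) * √(2 * d / (Real.pi * g)) ^ d

end Pool.Agent.L7h85.HN
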