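import Pool.Agent.L7h85.HN.Count
import Pool.Agent.L7h85.HN.FDefs
import Pool.Agent.TH170.MF.Final

/-!
# The number of the types with one or two independent relations, for finitely many minimal spaces
-/

set_option autoImplicit false
set_option linter.unusedSectionVars false
set_option linter.unusedVariables false

namespace Pool.Agent.L7h85.HN

open NumberField Finset Module Pool.Agent.H204R3.CM Pool.Agent.TH170 Pool.Agent.TH170.CM
  Pool.Agent.TH170.MF Pool.Agent.TH170.FW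

section

variable {E : Type} [Field E] [NumberField E] [IsCMField E]

theorem finrank_le_of_minimal {S : Submodule ℚ ((E →+* ℂ) → ℚ)} (hS : S ∈ minimalSpaces E) {g : ℕ}
    (hg : finrank ℚ E = 2 * g) : finrank ℚ S ≤ g := by
  classical
  have h1 := MF.sum_finrank_le (c := ComplexEmbedding.conjugate (K := E)) conj_conj conj_ne {S}
    (fun W hW => by
      rw [mem_singleton.1 hW]
      exact hS.2.2.1) (fun W hW W' hW' hne => absurd ((mem_singleton.1 hW).trans
        (mem_singleton.1 hW').symm) hne) (g := g) (by rw [Embeddings.card, hg])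
  rwa [sum_singleton] at h1

theorem numSpaces_eq (hfin : (minimalSpaces E).Finite) (d : ℕ) :
    numSpaces E d = (hfin.toFinset.filter fun S : Submodule ℚ ((E →+* ℂ) → ℚ) =>
      finrank ℚ S = d).card := by
  have h3 : {S ∈ minimalSpaces E | finrank ℚ S = d} =
      ((hfin.toFinset.filter (fun S : Submodule ℚ ((E →+* ℂ) → ℚ) => finrank ℚ S = d) :
        Finset (Submodule ℚ ((E →+* ℂ) → ℚ))) : Set (Submodule ℚ ((E →+* ℂ) → ℚ))) := by
    ext S
    simp only [coe_filter, Set.Finite.mem_toFinset, Set.mem_ofPred_eq]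
  unfold numSpaces
  rw [h3, Set.ncard_coe_finset]

/-- A sum over the minimal spaces, by the dimensions. -/
theorem sum_by_dim (hfin : (minimalSpaces E).Finite) {g : ℕ} (hg : finrank ℚ E = 2 * g) (a : ℕ)
    (f : ℕ → ℝ) : ∑ S ∈ hfin.toFinset.filter (fun S : Submodule ℚ ((E →+* ℂ) → ℚ) =>
      a ≤ finrank ℚ S), f (finrank ℚ S) = ∑ d ∈ Icc a g, (numSpaces E d : ℝ) * f d := by
  classical
  rw [← sum_fiberwise_of_maps_to (g := fun S : Submodule ℚ ((E →+* ℂ) → ℚ) => finrank ℚ S)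
    (t := Icc a g) fun S hS => by
      rw [mem_filter, hfin.mem_toFinset] at hS
      exact mem_Icc.2 ⟨hS.2, finrank_le_of_minimal hS.1 hg⟩]
  refine sum_congr rfl fun d hd => ?_
  have h1 : (hfin.toFinset.filter (fun S : Submodule ℚ ((E →+* ℂ) → ℚ) => a ≤ finrank ℚ S)).filter
      (fun S : Submodule ℚ ((E →+* ℂ) → ℚ) => finrank ℚ S = d) =
      hfin.toFinset.filter fun S : Submodule ℚ ((E →+* ℂ) → ℚ) => finrank ℚ S = d := by
    ext S
    simp only [mem_filter]
    constructor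
    · rintro ⟨⟨h1, h2⟩, h3⟩
      exact ⟨h1, h3⟩
    · rintro ⟨h1, h3⟩
      exact ⟨⟨h1, h3 ▸ (mem_Icc.1 hd).1⟩, h3⟩
  rw [h1, sum_congr rfl fun S hS => by rw [(mem_filter.1 hS).2], sum_const, nsmul_eq_mul,
    numSpaces_eq hfin]

/-- **The number of the degenerate types.** -/
theorem ncard_degTypes_fin (hfin : (minimalSpaces E).Finite) {M : (E →+* ℂ) → ℤ}
    (hM0 : ∀ φ, M φ ≠ 0) (hMc : ∀ φ, M (ComplexEmbedding.conjugate φ) = M φ) {g : ℕ}
    (hg : finrank ℚ E = 2 * g) : ((degTypes M).ncard : ℝ) ≤ 2 ^ g * boundOne E g := by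
  classical
  have hsub : degTypes M ⊆ ⋃ S ∈ hfin.toFinset.filter (fun S : Submodule ℚ ((E →+* ℂ) → ℚ) =>
      1 ≤ finrank ℚ S), {Φ : Set (E →+* ℂ) | IsCMType Φ ∧ OrthW M Φ S} := by
    rintro Φ ⟨hΦ, S, hS, horth⟩
    refine Set.mem_biUnion (x := S) ?_ ⟨hΦ, horth⟩
    rw [mem_coe, mem_filter, hfin.mem_toFinset]
    exact ⟨hS, finrank_pos_of_minimal E hS⟩
  have h1 := (Set.ncard_le_ncard hsub (Set.toFinite _)).trans (Finset.set_ncard_biUnion_le _ _)
  refine (Nat.cast_le.2 h1).trans ?_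
  rw [Nat.cast_sum, boundOne, ← sum_by_dim hfin hg 1 (fun d => √(2 * d / (Real.pi * g)) ^ d),
    mul_sum]
  refine sum_le_sum fun S hS => ?_
  rw [mem_filter, hfin.mem_toFinset] at hS
  exact ncard_orthW hM0 hMc S hS.1.2.1 hS.1.2.2.1 hS.1.1 hg

/-- **The number of the types with two independent relations.** -/
theorem ncard_twoTypes_fin (hfin : (minimalSpaces E).Finite) {M : (E →+* ℂ) → ℤ}
    (hM0 : ∀ φ, M φ ≠ 0) (hMc : ∀ φ, M (ComplexEmbedding.conjugate φ) = M φ) {g : ℕ}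
    (hg : finrank ℚ E = 2 * g) : ((twoTypes M).ncard : ℝ) ≤ 2 ^ g * boundTwo E g := by
  classical
  have hg0 : 0 < g := by
    have := Module.finrank_pos (R := ℚ) (M := E)
    omega
  set F1 := hfin.toFinset.filter (fun W : Submodule ℚ ((E →+* ℂ) → ℚ) => finrank ℚ W = 1) with hF1
  set F2 := hfin.toFinset.filter (fun W : Submodule ℚ ((E →+* ℂ) → ℚ) => 2 ≤ finrank ℚ W) with hF2
  have hsub : twoTypes M ⊆
      (⋃ P ∈ F1.powersetCard 2, {Φ : Set (E →+* ℂ) | IsCMType Φ ∧ OrthW M Φ (P.sup id)}) ∪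
      ⋃ W ∈ F2, {Φ : Set (E →+* ℂ) | IsCMType Φ ∧ OrthW M Φ W} := by
    rintro Φ ⟨hΦ, S, hS, ho, horth, h2⟩
    obtain ⟨S₁, hS₁, hle₁⟩ := exists_minimal hS ho (by
      rintro rfl
      rw [finrank_bot] at h2
      omega)
    have hcase : ∀ S' ∈ minimalSpaces E, S' ≤ S → S' ∉ F1 → Φ ∈ ⋃ W ∈ F2,
        {Φ : Set (E →+* ℂ) | IsCMType Φ ∧ OrthW M Φ W} := by
      intro S' hS' hle' hn
      refine Set.mem_biUnion (x := S') ?_ ⟨hΦ, OrthW.mono horth hle'⟩
      rw [mem_coe, hF2, mem_filter, hfin.mem_toFinset]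
      refine ⟨hS', ?_⟩
      have h3 := finrank_pos_of_minimal E hS'
      have h4 : finrank ℚ S' ≠ 1 := fun h => hn (by
        rw [hF1, mem_filter, hfin.mem_toFinset]
        exact ⟨hS', h⟩)
      omega
    by_cases h1 : S₁ ∈ F1
    · have hd1 : finrank ℚ S₁ = 1 := (mem_filter.1 h1).2
      obtain ⟨S₂, hS₂, hle₂, hne⟩ := exists_second hS ho hS₁.2.1 hle₁ (by omega)
      by_cases h3 : S₂ ∈ F1
      · left
        refine Set.mem_biUnion (x := {S₁, S₂}) ?_ ⟨hΦ, ?_⟩
        · rw [mem_coe, mem_powersetCard]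
          refine ⟨?_, card_pair (Ne.symm hne)⟩
          intro W hW
          rcases mem_insert.1 hW with rfl | hW
          · exact h1
          · rw [mem_singleton.1 hW]
            exact h3
        · rw [sup_insert, sup_singleton]
          exact OrthW.sup (OrthW.mono horth hle₁) (OrthW.mono horth hle₂)
      · right
        exact hcase S₂ hS₂ hle₂ h3
    · right
      exact hcase S₁ hS₁ hle₁ h1
  have hA : ∀ P ∈ F1.powersetCard 2,
      (({Φ : Set (E →+* ℂ) | IsCMType Φ ∧ OrthW M Φ (P.sup id)}.ncard : ℕ) : ℝ) ≤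
        2 ^ g * (4 / (Real.pi * g)) := by
    intro P hP
    obtain ⟨hP1, hP2⟩ := mem_powersetCard.1 hP
    obtain ⟨a, b, hab, rfl⟩ := card_eq_two.1 hP2
    have ha := (mem_filter.1 (hP1 (mem_insert_self a _)))
    have hb := (mem_filter.1 (hP1 (mem_insert_of_mem (mem_singleton_self b))))
    rw [hfin.mem_toFinset] at ha hb
    rw [sup_insert, sup_singleton, id, id]
    have hd := finrank_sup_of_ne ha.2 hb.2 hab
    have h1 := ncard_orthW hM0 hMc (a ⊔ b) (IsStable.sup ha.1.2.1 hb.1.2.1)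
      (IsOddSpace.sup ha.1.2.2.1 hb.1.2.2.1) (by
        intro h0
        rw [h0, finrank_bot] at hd
        omega) hg
    rw [hd, Real.sq_sqrt (by positivity)] at h1
    refine h1.trans (le_of_eq ?_)
    push_cast
    ring
  have h1 : (twoTypes M).ncard ≤
      ∑ P ∈ F1.powersetCard 2, {Φ : Set (E →+* ℂ) | IsCMType Φ ∧ OrthW M Φ (P.sup id)}.ncard +
      ∑ W ∈ F2, {Φ : Set (E →+* ℂ) | IsCMType Φ ∧ OrthW M Φ W}.ncard := by
    refine (Set.ncard_le_ncard hsub (Set.toFinite _)).trans ((Set.ncard_union_le _ _).trans ?_)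
    exact Nat.add_le_add (Finset.set_ncard_biUnion_le _ _) (Finset.set_ncard_biUnion_le _ _)
  have h2 : ((∑ P ∈ F1.powersetCard 2,
      {Φ : Set (E →+* ℂ) | IsCMType Φ ∧ OrthW M Φ (P.sup id)}.ncard : ℕ) : ℝ) ≤
      2 ^ g * ((numSpaces E 1).choose 2 * (4 / (Real.pi * g))) := by
    rw [Nat.cast_sum]
    refine (sum_le_sum hA).trans (le_of_eq ?_)
    rw [sum_const, card_powersetCard, ← numSpaces_eq hfin, nsmul_eq_mul]
    ring
  refine (Nat.cast_le.2 h1).trans ?_
  rw [Nat.cast_add, boundTwo, mul_add]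
  refine add_le_add h2 ?_
  rw [Nat.cast_sum, ← sum_by_dim hfin hg 2 (fun d => √(2 * d / (Real.pi * g)) ^ d), mul_sum]
  refine sum_le_sum fun S hS => ?_
  rw [hF2, mem_filter, hfin.mem_toFinset] at hS
  exact ncard_orthW hM0 hMc S hS.1.2.1 hS.1.2.2.1 hS.1.1 hg

/-- The estimate for multiplicity free fields. -/
theorem boundTwo_le (hE : MultiplicityFree E) {g : ℕ} (hg : finrank ℚ E = 2 * g) :
    boundTwo E g ≤ ((numSpaces E 1).choose 2 : ℝ) * (4 / (Real.pi * g)) +
      2 * (numSpaces E 2 + 1) / g + 3 * numSpaces E 3 / (g * √g) := by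
  classical
  have hfin := finite_minimalSpaces E hE
  have hg0 : 0 < g := by
    have := Module.finrank_pos (R := ℚ) (M := E)
    omega
  rw [boundTwo, add_assoc]
  refine add_le_add le_rfl ?_
  rw [← sum_by_dim hfin hg 2 (fun d => √(2 * d / (Real.pi * g)) ^ d), sum_filter]
  have h5 := sum_counts_le False hfin.toFinset (fun S => finrank ℚ S)
    (fun S hS => finrank_pos_of_minimal E (hfin.mem_toFinset.1 hS)) hg0
    (sum_finrank_minimal E hE hg hfin.toFinset (fun S hS => hfin.mem_toFinset.1 hS))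
    (fun S => if 2 ≤ finrank ℚ S then √(2 * finrank ℚ S / (Real.pi * g)) ^ finrank ℚ S else 0)
    (fun S hS => by
      split_ifs
      · exact le_rfl
      · positivity)
    (fun _ S hS hd => if_neg (by omega))
  rw [if_neg not_false, zero_add, ← numSpaces_eq hfin, ← numSpaces_eq hfin] at h5
  exact h5

end

/-- Abelian fields and fields with exchangeable embeddings. -/
theorem mf_of {K : Type} [Field K] [NumberField K] [IsCMField K]
    (h : IsAbelianGalois ℚ K ∨ ∀ φ ψ : K →+* ℂ, ∃ σ : ℂ ≃+* ℂ,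
      (σ : ℂ →+* ℂ).comp φ = ψ ∧ (σ : ℂ →+* ℂ).comp ψ = φ) : MultiplicityFree K := by
  rcases h with h | h
  · exact multiplicityFree_of_abelian K
  · exact multiplicityFree_of_exchangeable K h

end Pool.Agent.L7h85.HN
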