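import Mathlib
import Pool.Agent.TH170.FW.Main

/-!
# The number of the types with two independent relations
-/

set_option autoImplicit false
set_option linter.unusedSectionVars false

namespace Pool.Agent.L7h85.HN

open NumberField Finset Module Pool.Agent.H204R3.CM Pool.Agent.TH170 Pool.Agent.TH170.CM
  Pool.Agent.TH170.MF Pool.Agent.TH170.FW
open Pool.Agent.TH170.QD (component components numSimple multipleComponents components_eq
  numSimple_eq multipleComponents_eq)

section

variable {E : Type*} [Field E] [NumberField E] [IsCMField E]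

/-- The types whose sign function with the weights `M` is orthogonal to some Galois-stable space of
odd functions of dimension at least two. -/
def twoTypes (M : (E →+* ℂ) → ℤ) : Set (Set (E →+* ℂ)) :=
  {Φ | IsCMType Φ ∧ ∃ S : Submodule ℚ ((E →+* ℂ) → ℚ), IsStable S ∧ IsOddSpace S ∧ OrthW M Φ S ∧
    2 ≤ finrank ℚ S}

/-- The bound for the proportion of the types with two independent relations, for a CM field of
degree `2 g` with `Q` imaginary quadratic subfields: `binomial (Q, 2) * 4 / (π g) + 2 (N 2 + 1) / g +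
3 N 3 / g ^ (3 / 2)`, plus the weights of the isotypic components that are not minimal. -/
noncomputable def rhoTwo (n g : ℕ) (φ₀ : E →+* ℂ) : ℝ :=
  (numImagQuadratic E).choose 2 * (4 / (Real.pi * g)) + 2 * (numSimple E 2 + 1) / g +
    3 * numSimple E 3 / (g * √g) + ∑ᶠ W ∈ multipleComponents E, weight n g φ₀ W

theorem exists_minimal {S : Submodule ℚ ((E →+* ℂ) → ℚ)} (hS : IsStable S) (ho : IsOddSpace S)
    (h0 : S ≠ ⊥) : ∃ S' ∈ minimalSpaces E, S' ≤ S := by
  obtain ⟨S', h1, h2⟩ := exists_minInv (G := Gal E) (c := ComplexEmbedding.conjugate (K := E)) S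
    ((invariant_iff S).2 hS) ho h0
  exact ⟨S', (minInv_iff S').1 h1, h2⟩

theorem OrthW.mono {M : (E →+* ℂ) → ℤ} {Φ : Set (E →+* ℂ)} {S S' : Submodule ℚ ((E →+* ℂ) → ℚ)}
    (h : OrthW M Φ S) (hle : S' ≤ S) : OrthW M Φ S' := fun s hs => h s (hle hs)

theorem OrthW.sup {M : (E →+* ℂ) → ℤ} {Φ : Set (E →+* ℂ)} {S S' : Submodule ℚ ((E →+* ℂ) → ℚ)}
    (h : OrthW M Φ S) (h' : OrthW M Φ S') : OrthW M Φ (S ⊔ S') := by
  intro s hs
  obtain ⟨a, ha, b, hb, rfl⟩ := Submodule.mem_sup.1 hs
  simp only [Pi.add_apply, mul_add, sum_add_distrib]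
  rw [h a ha, h' b hb, add_zero]

theorem IsStable.sup {S S' : Submodule ℚ ((E →+* ℂ) → ℚ)} (h : IsStable S) (h' : IsStable S') :
    IsStable (S ⊔ S') := by
  intro σ s hs
  obtain ⟨a, ha, b, hb, rfl⟩ := Submodule.mem_sup.1 hs
  exact Submodule.mem_sup.2 ⟨_, h σ a ha, _, h' σ b hb, rfl⟩

theorem IsOddSpace.sup {S S' : Submodule ℚ ((E →+* ℂ) → ℚ)} (h : IsOddSpace S)
    (h' : IsOddSpace S') : IsOddSpace (S ⊔ S') := by
  intro s hs φ
  obtain ⟨a, ha, b, hb, rfl⟩ := Submodule.mem_sup.1 hs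
  rw [Pi.add_apply, Pi.add_apply, h a ha, h' b hb]
  ring

/-- Two different minimal spaces of dimension one. -/
theorem finrank_sup_of_ne {S S' : Submodule ℚ ((E →+* ℂ) → ℚ)} (h : finrank ℚ S = 1)
    (h' : finrank ℚ S' = 1) (hne : S ≠ S') : finrank ℚ (S ⊔ S' : Submodule ℚ ((E →+* ℂ) → ℚ)) = 2 := by
  have h1 := Submodule.finrank_sup_add_finrank_inf_eq S S'
  have h2 : finrank ℚ (S ⊓ S' : Submodule ℚ ((E →+* ℂ) → ℚ)) = 0 := by
    by_contra h3
    have h4 : finrank ℚ (S ⊓ S' : Submodule ℚ ((E →+* ℂ) → ℚ)) ≤ finrank ℚ S :=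
      Submodule.finrank_mono inf_le_left
    have h5 : S ⊓ S' = S := Submodule.eq_of_le_of_finrank_eq inf_le_left (by omega)
    have h6 : S ⊓ S' = S' := Submodule.eq_of_le_of_finrank_eq inf_le_right (by omega)
    exact hne (h5.symm.trans h6)
  omega

/-- The orthogonal complement of a stable space in a stable space. -/
theorem exists_second {S S₁ : Submodule ℚ ((E →+* ℂ) → ℚ)} (hS : IsStable S) (ho : IsOddSpace S)
    (hS₁ : IsStable S₁) (hle : S₁ ≤ S) (hlt : finrank ℚ S₁ < finrank ℚ S) :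
    ∃ S₂ ∈ minimalSpaces E, S₂ ≤ S ∧ S₂ ≠ S₁ := by
  classical
  set T : Submodule ℚ ((E →+* ℂ) → ℚ) := S ⊓ (dot (E →+* ℂ)).orthogonal S₁ with hT
  have hTst : IsStable T := by
    intro σ s hs
    refine ⟨hS σ s hs.1, (mem_orth S₁ _).2 fun u hu => ?_⟩
    -- translate by the inverse automorphism
    have h1 := hS₁ σ.symm u hu
    have h2 := (mem_orth S₁ s).1 hs.2 _ h1
    rw [← h2]
    refine Fintype.sum_equiv (Equiv.ofBijective (fun φ : E →+* ℂ => (σ : ℂ →+* ℂ).comp φ) ⟨?_, ?_⟩)
      _ _ ?_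
    · intro φ ψ h
      ext x
      have := congrArg (fun f : E →+* ℂ => f x) h
      exact σ.injective this
    · intro φ
      refine ⟨(σ.symm : ℂ →+* ℂ).comp φ, ?_⟩
      ext x
      simp
    · intro φ
      change _ = u ((σ.symm : ℂ →+* ℂ).comp ((σ : ℂ →+* ℂ).comp φ)) * s ((σ : ℂ →+* ℂ).comp φ)
      congr 2
      ext x
      simp
  have hT0 : T ≠ ⊥ := by
    intro h0
    have h1 : S ≤ S₁ := by
      intro s hs
      have hc := isCompl_orth S₁
      have h2 : s ∈ S₁ ⊔ (dot (E →+* ℂ)).orthogonal S₁ := by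
        rw [hc.sup_eq_top]
        trivial
      obtain ⟨a, ha, b, hb, rfl⟩ := Submodule.mem_sup.1 h2
      have h3 : b ∈ T := by
        refine ⟨?_, hb⟩
        have := S.sub_mem hs (hle ha)
        rwa [add_sub_cancel_left] at this
      rw [h0, Submodule.mem_bot] at h3
      rw [h3, add_zero]
      exact ha
    have := Submodule.finrank_mono h1
    omega
  obtain ⟨S₂, h1, h2⟩ := exists_minimal hTst (fun s hs => ho s hs.1) hT0
  refine ⟨S₂, h1, h2.trans inf_le_left, ?_⟩
  rintro rfl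
  apply h1.1
  rw [Submodule.eq_bot_iff]
  intro s hs
  exact dot_self ((mem_orth S₂ s).1 (h2 hs).2 s hs)

/-- A minimal space which has a component of dimension one is this component. -/
theorem eq_component {S : Submodule ℚ ((E →+* ℂ) → ℚ)} (hS : S ∈ minimalSpaces E)
    (h : finrank ℚ (QC.component S) = 1) : QC.component S = S := by
  have h1 : S ≤ QC.component S := QC.le_component hS
  have h2 : 0 < finrank ℚ S := finrank_pos_of_minimal E hS
  exact (Submodule.eq_of_le_of_finrank_le h1 (by omega)).symm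

/-- **The number of the types with two independent relations.** -/
theorem ncard_twoTypes_le {M : (E →+* ℂ) → ℤ} {n : ℕ} (hn0 : n ≠ 0) (hMn : ∀ φ, M φ ∣ (n : ℤ))
    (hMc : ∀ φ, M (ComplexEmbedding.conjugate φ) = M φ) {g : ℕ} (hg : finrank ℚ E = 2 * g)
    (φ₀ : E →+* ℂ) : ((twoTypes M).ncard : ℝ) ≤ 2 ^ g * rhoTwo n g φ₀ := by
  classical
  have hM0 : ∀ φ, M φ ≠ 0 := by
    intro φ h
    have h1 := hMn φ
    rw [h, zero_dvd_iff] at h1
    exact hn0 (by exact_mod_cast h1)
  have hg0 : 0 < g := by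
    have := Module.finrank_pos (R := ℚ) (M := E)
    omega
  have hfin := QC.finite_components (E := E)
  set F : Finset (Submodule ℚ ((E →+* ℂ) → ℚ)) := hfin.toFinset with hF
  set F1 := F.filter (fun W => W ∈ minimalSpaces E ∧ finrank ℚ W = 1) with hF1
  set F2 := F.filter (fun W => ¬ (W ∈ minimalSpaces E ∧ finrank ℚ W = 1)) with hF2
  -- the union
  have hsub : twoTypes M ⊆
      (⋃ P ∈ F1.powersetCard 2, {Φ : Set (E →+* ℂ) | IsCMType Φ ∧ OrthW M Φ (P.sup id)}) ∪
      ⋃ W ∈ F2, {Φ : Set (E →+* ℂ) | IsCMType Φ ∧ ∃ S ∈ minimalSpaces E, QC.component S = W ∧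
        OrthW M Φ S} := by
    rintro Φ ⟨hΦ, S, hS, ho, horth, h2⟩
    obtain ⟨S₁, hS₁, hle₁⟩ := exists_minimal hS ho (by
      rintro rfl
      rw [finrank_bot] at h2
      omega)
    have hcase : ∀ S' ∈ minimalSpaces E, S' ≤ S → S' ∉ F1 → Φ ∈ ⋃ W ∈ F2,
        {Φ : Set (E →+* ℂ) | IsCMType Φ ∧ ∃ S ∈ minimalSpaces E, QC.component S = W ∧
        OrthW M Φ S} := by
      intro S' hS' hle' hn
      refine Set.mem_biUnion (x := QC.component S') ?_ ⟨hΦ, S', hS', rfl, OrthW.mono horth hle'⟩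
      rw [mem_coe, hF2, mem_filter, hF, hfin.mem_toFinset]
      refine ⟨⟨S', hS', rfl⟩, fun h => hn ?_⟩
      rw [hF1, mem_filter, hF, hfin.mem_toFinset]
      have h3 := eq_component hS' h.2
      rw [h3] at h
      exact ⟨⟨S', hS', h3⟩, h⟩
    by_cases h1 : S₁ ∈ F1
    · have hd1 : finrank ℚ S₁ = 1 := (mem_filter.1 h1).2.2
      obtain ⟨S₂, hS₂, hle₂, hne⟩ := exists_second hS ho hS₁.2.1 hle₁ (by omega)
      by_cases h3 : S₂ ∈ F1
      · left
        refine Set.mem_biUnion (x := {S₁, S₂}) ?_ ⟨hΦ, ?_⟩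
        · rw [mem_coe, mem_powersetCard]
          refine ⟨?_, card_pair (Ne.symm hne)⟩
          intro W hW
          rcases mem_insert.1 hW with rfl | hW
          · exact h1
          · rw [mem_singleton.1 hW]
            exact h3
        · rw [sup_insert, sup_singleton]
          exact OrthW.sup (OrthW.mono horth hle₁) (OrthW.mono horth hle₂)
      · right
        exact hcase S₂ hS₂ hle₂ h3
    · right
      exact hcase S₁ hS₁ hle₁ h1
  have hA : ∀ P ∈ F1.powersetCard 2,
      (({Φ : Set (E →+* ℂ) | IsCMType Φ ∧ OrthW M Φ (P.sup id)}.ncard : ℕ) : ℝ) ≤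
        2 ^ g * (4 / (Real.pi * g)) := by
    intro P hP
    obtain ⟨hP1, hP2⟩ := mem_powersetCard.1 hP
    obtain ⟨a, b, hab, rfl⟩ := card_eq_two.1 hP2
    have ha := (mem_filter.1 (hP1 (mem_insert_self a _))).2
    have hb := (mem_filter.1 (hP1 (mem_insert_of_mem (mem_singleton_self b)))).2
    rw [sup_insert, sup_singleton, id, id]
    have hd := finrank_sup_of_ne ha.2 hb.2 hab
    have h1 := ncard_orthW hM0 hMc (a ⊔ b) (IsStable.sup ha.1.2.1 hb.1.2.1)
      (IsOddSpace.sup ha.1.2.2.1 hb.1.2.2.1) (by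
        intro h0
        rw [h0, finrank_bot] at hd
        omega) hg
    rw [hd, Real.sq_sqrt (by positivity)] at h1
    refine h1.trans (le_of_eq ?_)
    push_cast
    ring
  have h1 : (twoTypes M).ncard ≤
      ∑ P ∈ F1.powersetCard 2, {Φ : Set (E →+* ℂ) | IsCMType Φ ∧ OrthW M Φ (P.sup id)}.ncard +
      ∑ W ∈ F2, {Φ : Set (E →+* ℂ) | IsCMType Φ ∧ ∃ S ∈ minimalSpaces E, QC.component S = W ∧
        OrthW M Φ S}.ncard := by
    refine (Set.ncard_le_ncard hsub (Set.toFinite _)).trans ((Set.ncard_union_le _ _).trans ?_)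
    exact Nat.add_le_add (Finset.set_ncard_biUnion_le _ _) (Finset.set_ncard_biUnion_le _ _)
  -- the pairs
  have hcard1 : F1.card = QC.numSimple E 1 := by
    have h7 : {W ∈ QC.components E | W ∈ minimalSpaces E ∧ finrank ℚ W = 1} =
        ((F1 : Finset (Submodule ℚ ((E →+* ℂ) → ℚ))) : Set (Submodule ℚ ((E →+* ℂ) → ℚ))) := by
      ext W
      simp only [hF1, hF, coe_filter, Set.Finite.mem_toFinset, Set.mem_ofPred_eq]
    unfold QC.numSimple
    rw [h7, Set.ncard_coe_finset]
  have h2 : ((∑ P ∈ F1.powersetCard 2,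
      {Φ : Set (E →+* ℂ) | IsCMType Φ ∧ OrthW M Φ (P.sup id)}.ncard : ℕ) : ℝ) ≤
      2 ^ g * ((numImagQuadratic E).choose 2 * (4 / (Real.pi * g))) := by
    rw [Nat.cast_sum]
    refine (sum_le_sum hA).trans ?_
    rw [sum_const, card_powersetCard, hcard1, nsmul_eq_mul]
    have h3 : ((QC.numSimple E 1).choose 2 : ℝ) ≤ (numImagQuadratic E).choose 2 := by
      exact_mod_cast Nat.choose_le_choose 2 (QC.numSimple_one_le E)
    have h4 : (0 : ℝ) ≤ 2 ^ g * (4 / (Real.pi * g)) := by positivity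
    calc ((QC.numSimple E 1).choose 2 : ℝ) * (2 ^ g * (4 / (Real.pi * g)))
        ≤ (numImagQuadratic E).choose 2 * (2 ^ g * (4 / (Real.pi * g))) :=
          mul_le_mul_of_nonneg_right h3 h4
      _ = _ := by ring
  have h3 : ((∑ W ∈ F2, {Φ : Set (E →+* ℂ) | IsCMType Φ ∧ ∃ S ∈ minimalSpaces E,
      QC.component S = W ∧ OrthW M Φ S}.ncard : ℕ) : ℝ) ≤ 2 ^ g * ∑ W ∈ F2, weight n g φ₀ W := by
    rw [Nat.cast_sum, mul_sum]
    refine sum_le_sum fun W hW => ncard_at_weight hn0 hMn hMc hg φ₀ ?_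
    exact hfin.mem_toFinset.1 (mem_filter.1 hW).1
  -- the weights of the other components
  have h4 : ∑ W ∈ F2, weight n g φ₀ W ≤ 2 * (numSimple E 2 + 1) / g +
      3 * numSimple E 3 / (g * √g) + ∑ᶠ W ∈ multipleComponents E, weight n g φ₀ W := by
    rw [numSimple_eq, numSimple_eq, multipleComponents_eq]
    set G := F.filter (fun W => W ∈ minimalSpaces E) with hG
    set G' := F.filter (fun W => W ∉ minimalSpaces E) with hG'
    have hmul : QC.multipleComponents E = (G' : Set (Submodule ℚ ((E →+* ℂ) → ℚ))) := by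
      ext W
      simp only [QC.multipleComponents, hG', hF, coe_filter, Set.Finite.mem_toFinset,
        Set.mem_ofPred_eq]
    have hFcomp : ∀ W ∈ G, W ∈ QC.components E ∧ W ∈ minimalSpaces E := by
      intro W hW
      rw [hG, mem_filter, hF, hfin.mem_toFinset] at hW
      exact hW
    have hselfF : ∀ W ∈ G, QC.component W = W := by
      intro W hW
      obtain ⟨⟨S, hS, hSW⟩, hWm⟩ := hFcomp W hW
      have h5 : S ≤ W := hSW ▸ QC.le_component hS
      rcases hWm.2.2.2 S hS.2.1 h5 with h6 | h6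
      · exact absurd h6 hS.1
      · rw [h6] at hSW
        exact hSW
    have hsumF : ∑ W ∈ G, finrank ℚ W ≤ g := by
      refine MF.sum_finrank_le (c := ComplexEmbedding.conjugate (K := E)) conj_conj conj_ne G
        (fun W hW => (hFcomp W hW).2.2.2.1) ?_ (by rw [Embeddings.card, hg])
      intro W hW W' hW' hne
      refine QC.orth_of_killers_ne ((minInv_iff W).2 (hFcomp W hW).2)
        ((minInv_iff W').2 (hFcomp W' hW').2) ?_
      intro h
      apply hne
      rw [← hselfF W hW, ← hselfF W' hW']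
      exact QC.component_congr h
    have h5 := sum_counts_le False G (fun W => finrank ℚ W)
      (fun W hW => finrank_pos_of_minimal E (hFcomp W hW).2) hg0 hsumF
      (fun W => if finrank ℚ W = 1 then 0 else weight n g φ₀ W)
      (fun W hW => by
        beta_reduce
        split_ifs with h6
        · positivity
        · rw [FW.weight, if_pos (hFcomp W hW).2]
          split_ifs
          · positivity
          · exact le_rfl)
      (fun _ W hW hd => if_pos hd)
    rw [if_neg not_false, zero_add] at h5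
    have h6 : ∀ d, ((G.filter (fun W : Submodule ℚ ((E →+* ℂ) → ℚ) => finrank ℚ W = d)).card : ℝ) =
        QC.numSimple E d := by
      intro d
      have h7 : {W ∈ QC.components E | W ∈ minimalSpaces E ∧ finrank ℚ W = d} =
          ((G.filter (fun W : Submodule ℚ ((E →+* ℂ) → ℚ) => finrank ℚ W = d) :
            Finset (Submodule ℚ ((E →+* ℂ) → ℚ))) : Set (Submodule ℚ ((E →+* ℂ) → ℚ))) := by
        ext W
        simp only [hG, hF, coe_filter, mem_filter, Set.Finite.mem_toFinset, Set.mem_ofPred_eq]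
        tauto
      unfold QC.numSimple
      rw [h7, Set.ncard_coe_finset]
    rw [h6, h6] at h5
    have h8 : F2 = G.filter (fun W : Submodule ℚ ((E →+* ℂ) → ℚ) => finrank ℚ W ≠ 1) ∪ G' := by
      ext W
      simp only [hF2, hG, hG', mem_filter, mem_union]
      tauto
    have h9 : Disjoint (G.filter (fun W : Submodule ℚ ((E →+* ℂ) → ℚ) => finrank ℚ W ≠ 1)) G' := by
      rw [Finset.disjoint_left]
      intro W h1 h2
      exact (mem_filter.1 h2).2 (mem_filter.1 (mem_filter.1 h1).1).2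
    rw [h8, sum_union h9, hmul, finsum_mem_coe_finset]
    have h10 : ∑ W ∈ G.filter (fun W : Submodule ℚ ((E →+* ℂ) → ℚ) => finrank ℚ W ≠ 1),
        weight n g φ₀ W =
        ∑ W ∈ G, if finrank ℚ W = 1 then 0 else weight n g φ₀ W := by
      rw [sum_filter]
      refine sum_congr rfl fun W _ => ?_
      by_cases h : finrank ℚ W = 1
      · rw [if_neg (not_not.2 h), if_pos h]
      · rw [if_pos h, if_neg h]
    rw [h10]
    linarith
  have h5 : ((twoTypes M).ncard : ℝ) ≤
      2 ^ g * ((numImagQuadratic E).choose 2 * (4 / (Real.pi * g))) +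
        2 ^ g * ∑ W ∈ F2, weight n g φ₀ W := by
    refine (Nat.cast_le.2 h1).trans ?_
    rw [Nat.cast_add]
    exact add_le_add h2 h3
  refine h5.trans ?_
  rw [← mul_add]
  refine mul_le_mul_of_nonneg_left ?_ (by positivity)
  unfold rhoTwo
  linarith

end

end Pool.Agent.L7h85.HN
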