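import Mathlib
import Pool.Agent.TH170.FW.Family
import Pool.Agent.L7h85.HN.Count

/-!
# The number of the families of types with two independent relations
-/

set_option autoImplicit false
set_option linter.unusedSectionVars false
set_option linter.unusedVariables false

namespace Pool.Agent.L7h85.HN

open NumberField Finset Module Pool.Agent.H204R3.CM Pool.Agent.H977R3.CM Pool.Agent.TH170.CM
  Pool.Agent.TH170.MF Pool.Agent.TH170.FW Pool.Agent.TH170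

section

variable {ι : Type*} [Fintype ι] (E : ι → Type*) [∀ i, Field (E i)]
    [∀ i, NumberField (E i)] [∀ i, IsCMField (E i)] {g : ι → ℕ}
    (hg : ∀ i, finrank ℚ (E i) = 2 * g i)

include hg in
/-- The families with members in given sets, for the indices in `P`. -/
theorem ncard_at (B : ∀ i, Set (Set (E i →+* ℂ))) (ρ : ι → ℝ)
    (hρ : ∀ i, ((B i).ncard : ℝ) ≤ 2 ^ g i * ρ i) (P : Finset ι) :
    (({Φ : ∀ i, Set (E i →+* ℂ) | (∀ i, IsCMType (Φ i)) ∧ ∀ i ∈ P, Φ i ∈ B i}.ncard : ℕ) : ℝ) ≤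
      2 ^ (∑ i, g i) * ∏ i ∈ P, ρ i := by
  classical
  let A : ∀ i, Finset (Set (E i →+* ℂ)) := fun i => univ.filter (fun Φ => IsCMType Φ)
  let B' : ∀ i, Finset (Set (E i →+* ℂ)) := fun i => univ.filter (fun Φ => Φ ∈ B i)
  have hA : ∀ i, (A i).card = 2 ^ g i := by
    intro i
    rw [← QD.ncard_cmTypes (E i) (hg i), ← Set.ncard_coe_finset]
    congr 1
    ext Φ
    simp only [A, coe_filter, mem_univ, true_and, Set.mem_ofPred_eq]
  have hB : ∀ i, ((B' i).card : ℝ) ≤ 2 ^ g i * ρ i := by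
    intro i
    have h1 := hρ i
    have h2 : (B i).ncard = (B' i).card := by
      rw [← Set.ncard_coe_finset]
      congr 1
      ext Φ
      simp only [B', coe_filter, mem_univ, true_and, Set.mem_ofPred_eq]
    rw [h2] at h1
    exact h1
  let S : ∀ i, Finset (Set (E i →+* ℂ)) := fun i => if i ∈ P then B' i else A i
  have hsub : {Φ : ∀ i, Set (E i →+* ℂ) | (∀ i, IsCMType (Φ i)) ∧ ∀ i ∈ P, Φ i ∈ B i} ⊆
      ((Fintype.piFinset S : Finset (∀ i, Set (E i →+* ℂ))) : Set (∀ i, Set (E i →+* ℂ))) := by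
    rintro Φ ⟨h1, h2⟩
    rw [mem_coe, Fintype.mem_piFinset]
    intro i
    by_cases hi : i ∈ P
    · simp only [S, if_pos hi]
      exact mem_filter.2 ⟨mem_univ _, h2 i hi⟩
    · simp only [S, if_neg hi]
      exact mem_filter.2 ⟨mem_univ _, h1 i⟩
  have h1 : {Φ : ∀ i, Set (E i →+* ℂ) | (∀ i, IsCMType (Φ i)) ∧ ∀ i ∈ P, Φ i ∈ B i}.ncard ≤
      ∏ i, (S i).card := by
    refine (Set.ncard_le_ncard hsub (Finset.finite_toSet _)).trans ?_
    rw [Set.ncard_coe_finset, Fintype.card_piFinset]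
  refine (Nat.cast_le.2 h1).trans ?_
  rw [Nat.cast_prod]
  have h2 : ∏ i, ((S i).card : ℝ) ≤ ∏ i, ((2 : ℝ) ^ g i * if i ∈ P then ρ i else 1) := by
    refine prod_le_prod (fun i _ => Nat.cast_nonneg _) fun i _ => ?_
    by_cases hi : i ∈ P
    · simp only [S, if_pos hi]
      exact hB i
    · simp only [S, if_neg hi]
      rw [hA]
      push_cast
      linarith
  refine h2.trans (le_of_eq ?_)
  rw [prod_mul_distrib, prod_pow_eq_pow_sum]
  congr 1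
  rw [prod_ite_mem, univ_inter]

include hg in
/-- A property of the families of types without bad member and with at most one degenerate member
fails for few families. -/
theorem ncard_families_pairs (B₂ B₁ : ∀ i, Set (Set (E i →+* ℂ))) (ρ₂ ρ₁ : ι → ℝ)
    (hρ₂ : ∀ i, ((B₂ i).ncard : ℝ) ≤ 2 ^ g i * ρ₂ i)
    (hρ₁ : ∀ i, ((B₁ i).ncard : ℝ) ≤ 2 ^ g i * ρ₁ i)
    (P : (∀ i, Set (E i →+* ℂ)) → Prop)
    (hP : ∀ Φ : ∀ i, Set (E i →+* ℂ), (∀ i, IsCMType (Φ i)) → (∀ i, Φ i ∉ B₂ i) →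
      (∀ i k, i ≠ k → Φ i ∈ B₁ i → Φ k ∉ B₁ k) → P Φ) :
    (({Φ : ∀ i, Set (E i →+* ℂ) | (∀ i, IsCMType (Φ i)) ∧ ¬ P Φ}.ncard : ℕ) : ℝ) ≤
      2 ^ (∑ i, g i) * (∑ i, ρ₂ i + ∑ T ∈ univ.powersetCard 2, ∏ i ∈ T, ρ₁ i) := by
  classical
  have hsub : {Φ : ∀ i, Set (E i →+* ℂ) | (∀ i, IsCMType (Φ i)) ∧ ¬ P Φ} ⊆
      (⋃ i ∈ (univ : Finset ι), {Φ : ∀ i, Set (E i →+* ℂ) | (∀ i, IsCMType (Φ i)) ∧
        ∀ k ∈ ({i} : Finset ι), Φ k ∈ B₂ k}) ∪
      ⋃ T ∈ (univ : Finset ι).powersetCard 2, {Φ : ∀ i, Set (E i →+* ℂ) |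
        (∀ i, IsCMType (Φ i)) ∧ ∀ k ∈ T, Φ k ∈ B₁ k} := by
    rintro Φ ⟨h1, h2⟩
    by_contra h3
    rw [Set.mem_union, not_or] at h3
    apply h2
    refine hP Φ h1 (fun i hi => h3.1 ?_) fun i k hik hi hk => h3.2 ?_
    · refine Set.mem_biUnion (x := i) (mem_coe.2 (mem_univ i)) ⟨h1, fun k hk => ?_⟩
      rw [mem_singleton.1 hk]
      exact hi
    · refine Set.mem_biUnion (x := {i, k}) ?_ ⟨h1, fun l hl => ?_⟩
      · rw [mem_coe, mem_powersetCard]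
        exact ⟨subset_univ _, card_pair hik⟩
      · rcases mem_insert.1 hl with rfl | hl
        · exact hi
        · rw [mem_singleton.1 hl]
          exact hk
  have h1 : {Φ : ∀ i, Set (E i →+* ℂ) | (∀ i, IsCMType (Φ i)) ∧ ¬ P Φ}.ncard ≤
      ∑ i, {Φ : ∀ i, Set (E i →+* ℂ) | (∀ i, IsCMType (Φ i)) ∧
        ∀ k ∈ ({i} : Finset ι), Φ k ∈ B₂ k}.ncard +
      ∑ T ∈ univ.powersetCard 2, {Φ : ∀ i, Set (E i →+* ℂ) | (∀ i, IsCMType (Φ i)) ∧
        ∀ k ∈ T, Φ k ∈ B₁ k}.ncard := by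
    refine (Set.ncard_le_ncard hsub (Set.toFinite _)).trans ((Set.ncard_union_le _ _).trans ?_)
    exact Nat.add_le_add (Finset.set_ncard_biUnion_le _ _) (Finset.set_ncard_biUnion_le _ _)
  refine (Nat.cast_le.2 h1).trans ?_
  rw [Nat.cast_add, Nat.cast_sum, Nat.cast_sum, mul_add, mul_sum, mul_sum]
  refine add_le_add (sum_le_sum fun i _ => ?_) (sum_le_sum fun T _ => ?_)
  · have := ncard_at E hg B₂ ρ₂ hρ₂ {i}
    rwa [prod_singleton] at this
  · exact ncard_at E hg B₁ ρ₁ hρ₁ T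

end

end Pool.Agent.L7h85.HN
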