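import Pool.Agent.Y137.HD.Defs

/-!
# The numerical Hodge standard conjecture for a ring of algebraic cycles: definition
-/

set_option autoImplicit false

namespace Pool.Agent.L7h85.HN

universe u

/-- The cycle `z` of codimension `i` on a variety of dimension `n`, with the ring of algebraic cycles
`A`, is numerically equivalent to zero: the intersection numbers with all cycles of codimension
`n - i` are zero. -/
def NumZero {A : Type u} [CommRing A] [Algebra ℚ A] (n : ℕ) (gr : ℕ → Submodule ℚ A)
    (deg : A →ₗ[ℚ] ℚ) (i : ℕ) (z : A) : Prop :=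
  ∀ w ∈ gr (n - i), deg (z * w) = 0

/-- The numerical Hodge standard conjecture for the variety of dimension `n` with the ring `A` of
algebraic cycles and the ample class `D`: for `2 j + m = n` the form `(-1) ^ j deg (z z' D ^ m)` on the
cycles of codimension `j` modulo numerical equivalence with `z D ^ (m + 1) = 0` (modulo numerical
equivalence; this is no condition for `j = 0`) is positive definite. -/
def NumHodge {A : Type u} [CommRing A] [Algebra ℚ A] (n : ℕ) (gr : ℕ → Submodule ℚ A)
    (deg : A →ₗ[ℚ] ℚ) (D : A) : Prop :=
  ∀ j m : ℕ, 2 * j + m = n → ∀ z ∈ gr j, (0 < j → NumZero n gr deg (j + m + 1) (z * D ^ (m + 1))) →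
    ¬ NumZero n gr deg j z → 0 < (-1 : ℚ) ^ j * deg (z * z * D ^ m)

end Pool.Agent.L7h85.HN
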