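import Pool.Agent.TH170.GS.Defs
import Pool.Agent.N202.QR.Defs
import Pool.Agent.Y137.HD.Defs
import Pool.Agent.L7h85.HN.Defs

/-!
# Abelian varieties over finite fields whose factors have given slope types: definitions
-/

set_option autoImplicit false

namespace Pool.Agent.L7h85.HN

open Pool.Agent.W495.TA Pool.Agent.W547.KB Pool.Agent.TH117.PO Pool.Agent.TH117.BL
  Pool.Agent.N202.QR Pool.Agent.Y137.HD Pool.Agent.TH170

/-- The fields `K i` are pairwise independent: for `i ≠ i'` and all complex embeddings `φ` of `K i` and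
`ψ` of `K i'` some automorphism of the field of complex numbers is the identity on the image of `φ` and
the complex conjugation on the image of `ψ`. -/
def AreIndependent {I : Type} (K : I → Type) [∀ i, Field (K i)] : Prop :=
  ∀ i i', i ≠ i' → ∀ (φ : K i →+* ℂ) (ψ : K i' →+* ℂ), ∃ σ : ℂ ≃+* ℂ,
    (∀ x, σ (φ x) = φ x) ∧ ∀ y, σ (ψ y) = starRingEnd ℂ (ψ y)

/-- The factors of the abelian variety `Z` over the field with `p ^ a` elements belong to different
ones of the fields `K i` (by the injective function `t`): the CM field of the factor with the index `k`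
is isomorphic to `K (t k)`, and the slopes of its Frobenius endomorphism are `(a + c M) / 2` at the
embeddings in the type `Φ (t k)` and `(a - c M) / 2` at the other embeddings, where `M = M (t k)` and
`c ≠ 0` is a real number (which depends on `k`). -/
def FactorsOfTypes {p : ℕ} [Fact p.Prime] {ν : PadicAlgCl p ≃+* ℂ} {I : Type} (K : I → Type)
    [∀ i, Field (K i)] (M : ∀ i, (K i →+* ℂ) → ℤ) (Φ : ∀ i, Set (K i →+* ℂ))
    (Z : RedAV p ν) : Prop :=
  ∃ t : Z.X.I → I, Function.Injective t ∧ ∀ k, ∃ (θ : K (t k) ≃+* (Z.X.factor k).E) (c : ℝ),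
    c ≠ 0 ∧ GS.HasSlopes ν (M (t k)) (Φ (t k)) Z.a c (θ.symm (Z.π k))

/-- The abelian variety `Y` is (over an algebraic closure) isogenous to a product of powers of the
factors of `Z` and of a supersingular abelian variety: for each factor of `Y`, some power of its
Frobenius endomorphism `π` is a power of the square root of `p ^ a`, or (for an embedding of the CM
fields) a power of the Frobenius endomorphism of a factor of `Z`. -/
def IsProductOfPowers {p : ℕ} [Fact p.Prime] {ν : PadicAlgCl p ≃+* ℂ} (Z Y : RedAV p ν) : Prop :=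
  ∀ i : Y.X.I, (∃ s : ℕ, 0 < s ∧ (Y.π i) ^ (2 * s) = ((p : (Y.X.factor i).E) ^ Y.a) ^ s) ∨
    ∃ (k : Z.X.I) (ι : (Z.X.factor k).E →+* (Y.X.factor i).E) (s t : ℕ), 0 < s ∧ 0 < t ∧
      Y.a * s = Z.a * t ∧ (Y.π i) ^ s = ι ((Z.π k) ^ t)

/-- The numerical Hodge standard conjecture for all abelian varieties `X` over all fields of
characteristic `p` whose specialization `Y` over an algebraic closure of the field with `p` elements is
isogenous to a product of powers of the factors of an abelian variety `Z` with the slope types `Φ`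
(`FactorsOfTypes`) and of a supersingular abelian variety. -/
def Holds {p : ℕ} [Fact p.Prime] (ν : PadicAlgCl p ≃+* ℂ) {I : Type} (K : I → Type)
    [∀ i, Field (K i)] (M : ∀ i, (K i →+* ℂ) → ℤ) (Φ : ∀ i, Set (K i →+* ℂ)) : Prop :=
  ∀ (Ω : Nat.Primes → Type) [∀ l, Field (Ω l)] [∀ l, CharZero (Ω l)]
    [∀ l : Nat.Primes, Algebra ℚ_[(l : ℕ)] (Ω l)] [∀ l, IsAlgClosed (Ω l)]
    (C : (Y : RedAV p ν) → (κ : Type) → FCl Ω Y κ → Prop), IsCompatible Ω C →
    ∀ l : Nat.Primes, IsRosatiPositive (Ω l) (atPrime C l) → AreTate (Ω l) (atPrime C l) →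
      ∀ Z Y : RedAV p ν, FactorsOfTypes K M Φ Z → IsProductOfPowers Z Y →
        ∀ α : Y.X.H1, IsPolar Y.X α →
          ∀ (A : Type) [CommRing A] [Algebra ℚ A] (n : ℕ) (gr : ℕ → Submodule ℚ A)
            (deg : A →ₗ[ℚ] ℚ) (D : A), IsCycleRing n gr deg D → LefschetzA n gr D →
            ∀ sp : (∀ r : ℕ, A → Form (Ω l) Y r), Specializes (atPrime C l) n gr D Y α sp →
              NumHodge n gr deg D

end Pool.Agent.L7h85.HN
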