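import Pool.Agent.L7h85.HN.Spec
import Pool.Agent.N202.QR.Final

/-!
# The numerical Hodge standard conjecture over arbitrary fields
-/

set_option autoImplicit false

namespace Pool.Agent.L7h85.HN

open NumberField Pool.Agent.H204R3.CM Pool.Agent.W547.KB Pool.Agent.W547.LD Pool.Agent.W547.HR
  Pool.Agent.W495.TA Pool.Agent.TH117.PO Module Pool.Agent.TH117.BL Pool.Agent.N202.QR
  Pool.Agent.Y137.HD

universe u

variable {p : ℕ} [Fact p.Prime] {ν : PadicAlgCl p ≃+* ℂ} {Ω : Type} [Field Ω] [CharZero Ω]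
  {C : (Y : RedAV p ν) → (κ : Type) → ((TM Ω Y) [⋀^κ]→ₗ[Ω] Ω) → Prop}
  {A : Type u} [CommRing A] [Algebra ℚ A] {n : ℕ} {gr : ℕ → Submodule ℚ A} {deg : A →ₗ[ℚ] ℚ}
  {D : A} {Y : RedAV p ν} {α : Y.X.H1} {sp : ∀ r : ℕ, A → Form Ω Y r}

/-- The positivity over the finite field implies the positivity over all fields. -/
theorem numHodge_of_hodgeType (hX : IsCycleRing n gr deg D) (hA : LefschetzA n gr D)
    (hY : HodgeType Ω C Y) (hα : IsPolar Y.X α) (hsp : Specializes C n gr D Y α sp) :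
    NumHodge n gr deg D :=
  numHodge_of_specializes hsp hX hA (hY α hα)

end Pool.Agent.L7h85.HN
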