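import Pool.Agent.L7h85.HN.One
import Pool.Agent.L7h85.HN.Quad

/-!
# Relations between the Frobenius eigenvalues: blocks
-/

set_option autoImplicit false
set_option linter.unusedSectionVars false
set_option linter.unusedVariables false

namespace Pool.Agent.L7h85.HN

open NumberField Pool.Agent.H204R3.CM Pool.Agent.W547.KB Pool.Agent.W547.LD Pool.Agent.W547.HR
  Pool.Agent.W495.TA Module Pool.Agent.TH117.PO Pool.Agent.W976.TA Pool.Agent.W417.TA
  Pool.Agent.TH117.BL Pool.Agent.W495.TC Pool.Agent.W495.TB Pool.Agent.TH117.F5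
  Pool.Agent.N202.QR

noncomputable section

variable {p : ℕ} [Fact p.Prime] {ν : PadicAlgCl p ≃+* ℂ} {Z : RedAV p ν} {k : Z.X.I}

theorem hasMixedRelations_iff {K : Type} [Field K] (κ : K →+* ℂ) (Z : RedAV p ν) :
    HasMixedRelations κ Z ↔ HasQuadRelE κ Z := Iff.rfl

/-- **Blocks.** -/
theorem quadE_of_sep {J : Type} [Fintype J] [DecidableEq J] (b : Z.X.I → J)
    (hb : ∀ i i', b i ≠ b i' → Independent Z i i') (hk : ∀ i, b i = b k → i = k)
    (hel : ∀ t, t ≠ b k → ∀ e, IsRel Z e → (∀ w, e w ≠ 0 → b w.1 = t) →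
      (fun w => (e w : ℤ)) ∈ AddSubgroup.closure
        {d : Emb Z → ℤ | ∃ n : Emb Z → ℕ, IsRel Z n ∧ IsElementary Z n ∧ ∀ w, d w = n w})
    {K : Type} [Field K] {κ : K →+* ℂ} (h : HasQuadRelE κ (oneFactor Z k)) : HasQuadRelE κ Z := by
  classical
  intro e he
  have h1 : (fun w => (e w : ℤ)) = ∑ t, fun w => ((part b t e w : ℕ) : ℤ) := by
    funext w
    rw [Finset.sum_apply]
    unfold part
    rw [Finset.sum_congr rfl fun t _ => show (((if b w.1 = t then e w else 0 : ℕ)) : ℤ) =
      if b w.1 = t then (e w : ℤ) else 0 by split_ifs <;> simp,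
      Finset.sum_ite_eq Finset.univ (b w.1) fun _ => (e w : ℤ), if_pos (Finset.mem_univ _)]
  rw [h1]
  refine AddSubgroup.sum_mem _ fun t _ => ?_
  have h2 := isRel_part b hb he t
  have h3 : ∀ w, part b t e w ≠ 0 → b w.1 = t := by
    intro w hw
    by_contra h4
    exact hw (if_neg h4)
  by_cases ht : t = b k
  · exact mem_of_one h h2 fun w hw => hk w.1 ((h3 w hw).trans ht)
  · refine AddSubgroup.closure_mono ?_ (hel t ht _ h2 h3)
    rintro d ⟨n, h4, h5, h6⟩
    exact ⟨n, h4, Or.inl h5, h6⟩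

/-- Each relation of one factor of dimension at most five is elementary. -/
theorem elementary_of_le {g : ℕ} {Z : RedAV p ν} (h : HasOneFactor Z g) (hg : g ≤ 5) :
    HasElementaryRelations Z := by
  classical
  obtain ⟨i0, h1, h2⟩ := h
  intro e he
  refine AddSubgroup.subset_closure ⟨e, he, Or.inr (Or.inl ⟨Set.univ, Or.inl ⟨?_, ?_⟩,
    fun _ _ => trivial⟩), fun w => rfl⟩
  · refine (Finset.sum_eq_single_of_mem i0 (Finset.mem_univ _) fun i _ hi =>
      absurd (h1 i) hi).le.trans ?_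
    rw [if_pos (Set.mem_univ i0), h2]
    omega
  · intro i _ i' _ hne
    exact absurd ((h1 i).trans (h1 i').symm) hne

/-- One factor of prime dimension, or with relations of rank one. -/
theorem quad_one {Z : RedAV p ν} (h : HasRankOneRelations Z ∨ ∃ g : ℕ, g.Prime ∧ HasOneFactor Z g) :
    ∃ (K : Type) (_ : Field K) (_ : NumberField K) (_ : IsCMField K) (_ : finrank ℚ K = 2)
      (κ : K →+* ℂ), HasQuadRelE κ Z := by
  rcases h with h | ⟨g, hg, h⟩
  · exact quad_of_rank_one h
  · have hel : HasElementaryRelations Z ∨ HasRankOneRelations Z := by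
      by_cases hg2 : g = 2
      · exact Or.inl (elementary_of_le h (by omega))
      · obtain ⟨i0, hone, hdeg⟩ := h
        exact prime_relations i0 hone hg hg2 hdeg
    rcases hel with h | h
    · obtain ⟨κ⟩ : Nonempty ((kp p).E →+* ℂ) := inferInstance
      exact ⟨(kp p).E, inferInstance, inferInstance, inferInstance, finrank_kp p, κ,
        quad_of_elementary κ h⟩
    · exact quad_of_rank_one h

theorem quadE_of_blocks {b : Z.X.I → ℕ} (hb : IsBlockDecomposition Z k b)
    (h : HasRankOneRelations (oneFactor Z k) ∨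
      ∃ g : ℕ, g.Prime ∧ finrank ℚ (Z.X.factor k).E = 2 * g) :
    ∃ (K : Type) (_ : Field K) (_ : NumberField K) (_ : IsCMField K) (_ : finrank ℚ K = 2)
      (κ : K →+* ℂ), HasQuadRelE κ Z := by
  classical
  obtain ⟨K, _, _, _, hK, κ, hκ⟩ := quad_one (Z := oneFactor Z k) (h.imp_right
    fun ⟨g, hg, h1⟩ => ⟨g, hg, (), fun _ => rfl, h1⟩)
  refine ⟨K, inferInstance, inferInstance, inferInstance, hK, κ, ?_⟩
  refine quadE_of_sep (J := Set.range b) (fun i => ⟨b i, i, rfl⟩) (fun i i' hne =>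
    hb.independent i i' fun h1 => hne (Subtype.ext h1)) (fun i hi =>
    hb.alone i (congrArg Subtype.val hi)) ?_ hκ
  rintro ⟨_, i, rfl⟩ ht e he hs
  refine AddSubgroup.subset_closure ⟨e, he, Or.inr (Or.inl ⟨_, hb.good i ?_, fun w hw =>
    congrArg Subtype.val (hs w hw)⟩), fun w => rfl⟩
  rintro rfl
  exact ht rfl

section hodge

variable {Ω : Nat.Primes → Type} [∀ l, Field (Ω l)] [∀ l, CharZero (Ω l)]
  [∀ l : Nat.Primes, Algebra ℚ_[(l : ℕ)] (Ω l)] [∀ l, IsAlgClosed (Ω l)]
  {C : (Y : RedAV p ν) → (κ : Type) → FCl Ω Y κ → Prop}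

/-- **Blocks, one of which is a factor of prime dimension or with relations of rank one.** -/
theorem hodge_blocks (hC : IsCompatible Ω C) (l : Nat.Primes)
    (hR : IsRosatiPositive (Ω l) (atPrime C l)) (hT : AreTate (Ω l) (atPrime C l))
    {Z Y : RedAV p ν} {k : Z.X.I} {b : Z.X.I → ℕ} (hb : IsBlockDecomposition Z k b)
    (h : HasRankOneRelations (oneFactor Z k) ∨
      ∃ g : ℕ, g.Prime ∧ finrank ℚ (Z.X.factor k).E = 2 * g)
    (hYZ : IsPowersTimesSupersingular Z Y) : HodgeType (Ω l) (atPrime C l) Y := by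
  obtain ⟨K, _, _, _, hK, κ, hκ⟩ := quadE_of_blocks hb h
  exact hodge_quadE hC l hR hT hK κ hκ hYZ

/-- **Independent factors, one of which has prime dimension or relations of rank one.** -/
theorem hodge_independent (hC : IsCompatible Ω C) (l : Nat.Primes)
    (hR : IsRosatiPositive (Ω l) (atPrime C l)) (hT : AreTate (Ω l) (atPrime C l))
    {Z Y : RedAV p ν} {k : Z.X.I} (hk : IsIndependent Z k)
    (h : HasRankOneRelations (oneFactor Z k) ∨
      ∃ g : ℕ, g.Prime ∧ finrank ℚ (Z.X.factor k).E = 2 * g)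
    (hYZ : IsPowersTimesSupersingular Z Y) : HodgeType (Ω l) (atPrime C l) Y := by
  classical
  let b : Z.X.I → ℕ := fun i => (Fintype.equivFin Z.X.I i : Fin _)
  have hb : ∀ i i', b i = b i' → i = i' := fun i i' h =>
    (Fintype.equivFin Z.X.I).injective (Fin.ext h)
  refine hodge_blocks hC l hR hT (k := k) (b := b) ⟨fun i i' h =>
    hk.independent i i' fun h' => h (congrArg b h'), fun i h => hb i k h, fun i hi => Or.inl
      ⟨?_, fun i' h1 i'' h2 hne => absurd (hb _ _ ((show b i' = b i from h1).trans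
        (show b i'' = b i from h2).symm)) hne⟩⟩ h hYZ
  refine (Finset.sum_eq_single_of_mem i (Finset.mem_univ _) fun i' _ hi' =>
    if_neg fun h2 => hi' (hb _ _ h2)).le.trans ?_
  rw [if_pos rfl]
  exact hk.small i hi

end hodge

end

end Pool.Agent.L7h85.HN
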