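import Mathlib
import Pool.Agent.L7h85.HN.Count
import Pool.Agent.L7h85.HN.Mix
import Pool.Agent.TH170.GS.Rel

/-!
# From the slope types to the relations between the Frobenius eigenvalues of one factor
-/

set_option autoImplicit false
set_option linter.unusedSectionVars false
set_option linter.unusedVariables false

namespace Pool.Agent.L7h85.HN

open NumberField Finset Module Pool.Agent.H204R3.CM Pool.Agent.H977R3.CM Pool.Agent.TH170.CM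
  Pool.Agent.TH170.MF Pool.Agent.W495.TA Pool.Agent.W547.KB Pool.Agent.TH117.BL
  Pool.Agent.TH170.FW Pool.Agent.TH170

section sols

variable {K : Type} [Field K] [NumberField K] [IsCMField K]

/-- The odd functions orthogonal to all translates of the sign function of the type. -/
def sols (M : (K →+* ℂ) → ℤ) (Φ : Set (K →+* ℂ)) : Submodule ℚ ((K →+* ℂ) → ℚ) where
  carrier := {u | (∀ φ, u (ComplexEmbedding.conjugate φ) = - u φ) ∧
    ∀ σ : ℂ ≃+* ℂ, ∑ φ, u φ * ((CM.sgn Φ ((σ : ℂ →+* ℂ).comp φ) *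
      M ((σ : ℂ →+* ℂ).comp φ) : ℤ) : ℚ) = 0}
  zero_mem' := by
    refine ⟨fun φ => by simp, fun σ => ?_⟩
    simp
  add_mem' := by
    rintro u v ⟨h1, h2⟩ ⟨h3, h4⟩
    refine ⟨fun φ => ?_, fun σ => ?_⟩
    · rw [Pi.add_apply, Pi.add_apply, h1, h3]
      ring
    · simp only [Pi.add_apply, add_mul, sum_add_distrib]
      rw [h2, h4, add_zero]
  smul_mem' := by
    rintro q u ⟨h1, h2⟩
    refine ⟨fun φ => ?_, fun σ => ?_⟩
    · rw [Pi.smul_apply, Pi.smul_apply, h1, smul_eq_mul, smul_eq_mul]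
      ring
    · simp only [Pi.smul_apply, smul_eq_mul, mul_assoc]
      rw [← mul_sum, h2, mul_zero]

theorem sols_odd (M : (K →+* ℂ) → ℤ) (Φ : Set (K →+* ℂ)) : MF.IsOddSpace (sols M Φ) :=
  fun s hs => hs.1

theorem sols_stable (M : (K →+* ℂ) → ℤ) (Φ : Set (K →+* ℂ)) : MF.IsStable (sols M Φ) := by
  rintro τ u ⟨h1, h2⟩
  refine ⟨fun φ => ?_, fun σ => ?_⟩
  · change u ((τ : ℂ →+* ℂ).comp (ComplexEmbedding.conjugate φ)) = - u ((τ : ℂ →+* ℂ).comp φ)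
    rw [QC.comp_conj, h1]
  · change ∑ φ, u (permOf K τ φ) * ((CM.sgn Φ ((σ : ℂ →+* ℂ).comp φ) *
        M ((σ : ℂ →+* ℂ).comp φ) : ℤ) : ℚ) = 0
    have h3 := h2 (τ.symm.trans σ)
    rw [← Equiv.sum_comp (permOf K τ)] at h3
    rw [← h3]
    refine sum_congr rfl fun φ _ => ?_
    have h4 : ((τ.symm.trans σ : ℂ ≃+* ℂ) : ℂ →+* ℂ).comp (permOf K τ φ) =
        (σ : ℂ →+* ℂ).comp φ := by
      ext x
      change σ (τ.symm (τ (φ x))) = σ (φ x)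
      rw [RingEquiv.symm_apply_apply]
    rw [h4]

theorem sols_orth (M : (K →+* ℂ) → ℤ) (Φ : Set (K →+* ℂ)) : OrthW M Φ (sols M Φ) := by
  intro s hs
  have h1 := hs.2 (RingEquiv.refl ℂ)
  rw [← h1]
  refine sum_congr rfl fun φ _ => ?_
  rw [mul_comm]
  rfl

theorem sols_eq_bot {M : (K →+* ℂ) → ℤ} {Φ : Set (K →+* ℂ)} (hΦ : IsCMType Φ)
    (h : Φ ∉ degTypes M) : sols M Φ = ⊥ := by
  by_contra h0
  obtain ⟨S, hS, hle⟩ := exists_minimal (sols_stable M Φ) (sols_odd M Φ) h0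
  exact h ⟨hΦ, S, hS, OrthW.mono (sols_orth M Φ) hle⟩

theorem sols_rank {M : (K →+* ℂ) → ℤ} {Φ : Set (K →+* ℂ)} (hΦ : IsCMType Φ)
    (h : Φ ∉ twoTypes M) : finrank ℚ (sols M Φ) ≤ 1 := by
  by_contra h0
  exact h ⟨hΦ, _, sols_stable M Φ, sols_odd M Φ, sols_orth M Φ, by omega⟩

theorem mul_comm_of_rank {S : Submodule ℚ ((K →+* ℂ) → ℚ)} (h : finrank ℚ S ≤ 1)
    {u v : (K →+* ℂ) → ℚ} (hu : u ∈ S) (hv : v ∈ S) (x y : K →+* ℂ) :
    u x * v y = u y * v x := by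
  obtain ⟨w, hw⟩ := finrank_le_one_iff.1 h
  obtain ⟨a, ha⟩ := hw ⟨u, hu⟩
  obtain ⟨b, hb⟩ := hw ⟨v, hv⟩
  have h1 : u = a • (w : (K →+* ℂ) → ℚ) := (congrArg Subtype.val ha).symm
  have h2 : v = b • (w : (K →+* ℂ) → ℚ) := (congrArg Subtype.val hb).symm
  rw [h1, h2]
  simp only [Pi.smul_apply, smul_eq_mul]
  ring

end sols

section one

variable {p : ℕ} [Fact p.Prime] {ν : PadicAlgCl p ≃+* ℂ} {K : Type} [Field K] [NumberField K]
  [IsCMField K] {Z : RedAV p ν} {k : Z.X.I}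

/-- The embeddings of `K` and the eigenvalues of the factor. -/
def eqv (θ : K ≃+* (Z.X.factor k).E) : (K →+* ℂ) ≃ Emb (oneFactor Z k) where
  toFun ψ := ⟨(), ψ.comp (θ.symm : (Z.X.factor k).E →+* K)⟩
  invFun u := (u.2 : (Z.X.factor k).E →+* ℂ).comp (θ : K →+* (Z.X.factor k).E)
  left_inv ψ := by
    ext x
    change ψ (θ.symm (θ x)) = ψ x
    rw [RingEquiv.symm_apply_apply]
  right_inv := by
    rintro ⟨⟨⟩, φ⟩
    refine Sigma.ext rfl (heq_of_eq ?_)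
    apply RingHom.ext
    intro x
    exact congrArg (φ : (Z.X.factor k).E →+* ℂ) (θ.apply_symm_apply x)

theorem conjE_eqv (θ : K ≃+* (Z.X.factor k).E) (ψ : K →+* ℂ) :
    N202.QR.conjE (eqv θ ψ) = eqv θ (ComplexEmbedding.conjugate ψ) := rfl

/-- The odd part of a relation is a solution. -/
theorem odd_mem_sols {M : (K →+* ℂ) → ℤ} (hM : ∀ φ, M (ComplexEmbedding.conjugate φ) = M φ)
    {Φ : Set (K →+* ℂ)} (hΦ : IsCMType Φ) (θ : K ≃+* (Z.X.factor k).E) {c : ℝ} (hc : c ≠ 0)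
    (hs : GS.HasSlopes ν M Φ Z.a c (θ.symm (Z.π k))) {e : Emb (oneFactor Z k) → ℕ}
    (he : IsRel (oneFactor Z k) e) :
    (fun ψ => ((N202.QR.oddE e (eqv θ ψ) : ℤ) : ℚ)) ∈ sols M Φ := by
  refine ⟨fun ψ => ?_, fun σ => ?_⟩
  · change ((N202.QR.oddE e (eqv θ (ComplexEmbedding.conjugate ψ)) : ℤ) : ℚ) = _
    rw [← conjE_eqv, N202.QR.oddE_conj]
    push_cast
    rfl
  · have h1 := GS.sum_dev_of_isRel he σ
    have hdev : ∀ ψ : K →+* ℂ, GS.dev (oneFactor Z k) σ (eqv θ ψ) =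
        c * ((CM.sgn Φ ((σ : ℂ →+* ℂ).comp ψ) * M ((σ : ℂ →+* ℂ).comp ψ) : ℤ) : ℝ) := by
      intro ψ
      have h2 := hs ((σ : ℂ →+* ℂ).comp ψ)
      have h3 : GS.dev (oneFactor Z k) σ (eqv θ ψ) =
          2 * (- Real.logb p ‖ν.symm (((σ : ℂ →+* ℂ).comp ψ) (θ.symm (Z.π k)))‖) - Z.a := rfl
      rw [h3, h2]
      congr 1
      unfold CM.sgn
      split_ifs
      · push_cast
        ring
      · push_cast
        ring
    rw [← Equiv.sum_comp (eqv θ)] at h1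
    simp only [hdev] at h1
    have h2 : ∑ ψ : K →+* ℂ, (e (eqv θ ψ) : ℝ) *
        ((CM.sgn Φ ((σ : ℂ →+* ℂ).comp ψ) * M ((σ : ℂ →+* ℂ).comp ψ) : ℤ) : ℝ) = 0 := by
      apply mul_left_cancel₀ hc
      rw [mul_zero, mul_sum, ← h1]
      exact sum_congr rfl fun ψ _ => by ring
    have h3 : ∑ ψ : K →+* ℂ, (e (eqv θ (ComplexEmbedding.conjugate ψ)) : ℝ) *
        ((CM.sgn Φ ((σ : ℂ →+* ℂ).comp ψ) * M ((σ : ℂ →+* ℂ).comp ψ) : ℤ) : ℝ) = 0 := by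
      rw [← neg_eq_zero, ← sum_neg_distrib, ← h2]
      refine Fintype.sum_equiv (Function.Involutive.toPerm _
        (conj_conj (E := K))) _ _ fun ψ => ?_
      change _ = (e (eqv θ (ComplexEmbedding.conjugate ψ)) : ℝ) *
        ((CM.sgn Φ ((σ : ℂ →+* ℂ).comp (ComplexEmbedding.conjugate ψ)) *
          M ((σ : ℂ →+* ℂ).comp (ComplexEmbedding.conjugate ψ)) : ℤ) : ℝ)
      rw [QC.comp_conj, hM, (oddSign_sgn hΦ).2]
      push_cast
      ring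
    have h4 : ((∑ ψ : K →+* ℂ, N202.QR.oddE e (eqv θ ψ) *
        (CM.sgn Φ ((σ : ℂ →+* ℂ).comp ψ) * M ((σ : ℂ →+* ℂ).comp ψ)) : ℤ) : ℝ) =
        ∑ ψ : K →+* ℂ, (e (eqv θ ψ) : ℝ) *
          ((CM.sgn Φ ((σ : ℂ →+* ℂ).comp ψ) * M ((σ : ℂ →+* ℂ).comp ψ) : ℤ) : ℝ) -
        ∑ ψ : K →+* ℂ, (e (eqv θ (ComplexEmbedding.conjugate ψ)) : ℝ) *
          ((CM.sgn Φ ((σ : ℂ →+* ℂ).comp ψ) * M ((σ : ℂ →+* ℂ).comp ψ) : ℤ) : ℝ) := by
      rw [← sum_sub_distrib, Int.cast_sum]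
      refine sum_congr rfl fun ψ _ => ?_
      unfold N202.QR.oddE
      rw [conjE_eqv]
      push_cast
      ring
    rw [h2, h3, sub_zero] at h4
    have h5 : ∑ ψ : K →+* ℂ, N202.QR.oddE e (eqv θ ψ) *
        (CM.sgn Φ ((σ : ℂ →+* ℂ).comp ψ) * M ((σ : ℂ →+* ℂ).comp ψ)) = 0 := by
      exact_mod_cast h4
    have h6 := congrArg (fun z : ℤ => (z : ℚ)) h5
    beta_reduce at h6
    rw [Int.cast_sum, Int.cast_zero] at h6
    rw [← h6]
    exact sum_congr rfl fun ψ _ => (Int.cast_mul _ _).symm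

/-- **Relations of rank one.** -/
theorem rankOne_of_types {M : (K →+* ℂ) → ℤ} (hM : ∀ φ, M (ComplexEmbedding.conjugate φ) = M φ)
    {Φ : Set (K →+* ℂ)} (hΦ : IsCMType Φ) (h2 : Φ ∉ twoTypes M) (θ : K ≃+* (Z.X.factor k).E)
    {c : ℝ} (hc : c ≠ 0) (hs : GS.HasSlopes ν M Φ Z.a c (θ.symm (Z.π k))) :
    N202.QR.HasRankOneRelations (oneFactor Z k) := by
  intro e e' he he' w w'
  have h1 := mul_comm_of_rank (sols_rank hΦ h2) (odd_mem_sols hM hΦ θ hc hs he)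
    (odd_mem_sols hM hΦ θ hc hs he') ((eqv θ).symm w) ((eqv θ).symm w')
  simp only [Equiv.apply_symm_apply] at h1
  exact_mod_cast h1

/-- **No relations.** -/
theorem trivial_of_types {M : (K →+* ℂ) → ℤ} (hM : ∀ φ, M (ComplexEmbedding.conjugate φ) = M φ)
    {Φ : Set (K →+* ℂ)} (hΦ : IsCMType Φ) (h1 : Φ ∉ degTypes M) (θ : K ≃+* (Z.X.factor k).E)
    {c : ℝ} (hc : c ≠ 0) (hs : GS.HasSlopes ν M Φ Z.a c (θ.symm (Z.π k)))
    {e : Emb (oneFactor Z k) → ℕ} (he : IsRel (oneFactor Z k) e) (w : Emb (oneFactor Z k)) :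
    N202.QR.oddE e w = 0 := by
  have h2 := odd_mem_sols hM hΦ θ hc hs he
  rw [sols_eq_bot hΦ h1, Submodule.mem_bot] at h2
  have h3 := congrFun h2 ((eqv θ).symm w)
  simp only [Equiv.apply_symm_apply, Pi.zero_apply] at h3
  exact_mod_cast h3

end one

end Pool.Agent.L7h85.HN
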