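import Mathlib
import Pool.Agent.L7h85.HN.Types
import Pool.Agent.L7h85.HN.TDefs
import Pool.Agent.L7h85.HN.Fin
import Pool.Agent.L7h85.HN.Pairs

/-!
# Almost all slope types
-/

set_option autoImplicit false
set_option linter.unusedSectionVars false
set_option linter.unusedVariables false

namespace Pool.Agent.L7h85.HN

open NumberField Finset Module Pool.Agent.H204R3.CM Pool.Agent.H977R3.CM Pool.Agent.TH170.CM
  Pool.Agent.TH170.MF Pool.Agent.W495.TA Pool.Agent.W547.KB Pool.Agent.TH117.BL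
  Pool.Agent.TH117.PO Pool.Agent.TH170.FW Pool.Agent.TH170 Pool.Agent.N202.QR

variable {p : ℕ} [Fact p.Prime] {ν : PadicAlgCl p ≃+* ℂ} {I : Type} {K : I → Type}
  [∀ i, Field (K i)] [∀ i, NumberField (K i)] [∀ i, IsCMField (K i)]

/-- **The relations between the Frobenius eigenvalues for good families of types.** -/
theorem quadE_of_types (hind : PairwiseIndep K) {M : ∀ i, (K i →+* ℂ) → ℤ}
    (hM : ∀ i φ, M i (ComplexEmbedding.conjugate φ) = M i φ) {g : I → ℕ}
    (hg : ∀ i, finrank ℚ (K i) = 2 * g i)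
    {Φ : ∀ i, Set (K i →+* ℂ)} (hΦ : ∀ i, IsCMType (Φ i))
    (h2 : ∀ i, 5 < g i → Φ i ∉ twoTypes (M i))
    (h1 : ∀ i i', i ≠ i' → 5 < g i → 5 < g i' → Φ i ∈ degTypes (M i) → Φ i' ∉ degTypes (M i'))
    {Z : RedAV p ν} (hZ : FactorsOfTypes K M Φ Z) :
    ∃ (F : Type) (_ : Field F) (_ : NumberField F) (_ : IsCMField F) (_ : finrank ℚ F = 2)
      (κ : F →+* ℂ), HasQuadRelE κ Z := by
  classical
  obtain ⟨t, ht, hZ⟩ := hZ
  choose θ c hc hs using hZ
  by_cases hne : IsEmpty Z.X.I
  · obtain ⟨κ⟩ : Nonempty ((kp p).E →+* ℂ) := inferInstance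
    refine ⟨(kp p).E, inferInstance, inferInstance, inferInstance, finrank_kp p, κ, ?_⟩
    intro e he
    have h0 : (fun w => (e w : ℤ)) = 0 := by
      funext w
      exact (hne.false w.1).elim
    rw [h0]
    exact AddSubgroup.zero_mem _
  rw [not_isEmpty_iff] at hne
  have hfin : ∀ k, finrank ℚ (Z.X.factor k).E = 2 * g (t k) := by
    intro k
    rw [← hg]
    exact (LinearEquiv.finrank_eq (AlgEquiv.ofRingEquiv (R := ℚ) (f := θ k) fun r => by
      rw [eq_ratCast, eq_ratCast]
      exact map_ratCast _ r).toLinearEquiv).symm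
  -- the special factor
  obtain ⟨k, hk⟩ : ∃ k, ∀ k', k' ≠ k → g (t k') ≤ 5 ∨ Φ (t k') ∉ degTypes (M (t k')) := by
    by_cases h : ∃ k, 5 < g (t k) ∧ Φ (t k) ∈ degTypes (M (t k))
    · obtain ⟨k, h3, h4⟩ := h
      refine ⟨k, fun k' hk' => ?_⟩
      by_cases h5 : g (t k') ≤ 5
      · exact Or.inl h5
      · exact Or.inr (h1 _ _ (fun h6 => hk' (ht h6).symm) h3 (by omega) h4)
    · push Not at h
      obtain ⟨k⟩ := hne
      refine ⟨k, fun k' _ => ?_⟩
      by_cases h5 : g (t k') ≤ 5
      · exact Or.inl h5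
      · exact Or.inr (h k' (by omega))
  have hone : HasRankOneRelations (oneFactor Z k) ∨ HasElementaryRelations (oneFactor Z k) := by
    by_cases h5 : g (t k) ≤ 5
    · exact Or.inr (elementary_of_le (g := g (t k)) ⟨(), fun _ => rfl, hfin k⟩ h5)
    · exact Or.inl (rankOne_of_types (hM _) (hΦ _) (h2 _ (by omega)) (θ k) (hc k) (hs k))
  obtain ⟨F, _, _, _, hF, κ, hκ⟩ : ∃ (F : Type) (_ : Field F) (_ : NumberField F)
      (_ : IsCMField F) (_ : finrank ℚ F = 2) (κ : F →+* ℂ), HasQuadRelE κ (oneFactor Z k) := by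
    rcases hone with h | h
    · exact quad_of_rank_one h
    · obtain ⟨κ⟩ : Nonempty ((kp p).E →+* ℂ) := inferInstance
      exact ⟨(kp p).E, inferInstance, inferInstance, inferInstance, finrank_kp p, κ,
        quad_of_elementary κ h⟩
  refine ⟨F, inferInstance, inferInstance, inferInstance, hF, κ, ?_⟩
  refine quadE_of_sep (J := Z.X.I) (fun i => i) (k := k) (fun i i' hne => ?_) (fun i hi => hi) ?_ hκ
  · -- independence
    intro φ ψ
    obtain ⟨σ, hσ1, hσ2⟩ := hind (t i) (t i') (fun h => hne (ht h))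
      (φ.comp (θ i : K (t i) →+* (Z.X.factor i).E))
      (ψ.comp (θ i' : K (t i') →+* (Z.X.factor i').E))
    refine ⟨σ, fun x => ?_, fun y => ?_⟩
    · have h3 := hσ1 ((θ i).symm x)
      change σ (φ (θ i ((θ i).symm x))) = φ (θ i ((θ i).symm x)) at h3
      rwa [RingEquiv.apply_symm_apply] at h3
    · have h3 := hσ2 ((θ i').symm y)
      change σ (ψ (θ i' ((θ i').symm y))) = starRingEnd ℂ (ψ (θ i' ((θ i').symm y))) at h3
      rwa [RingEquiv.apply_symm_apply] at h3
  · intro i hi e he hsupp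
    rcases hk i hi with h5 | h5
    · refine AddSubgroup.subset_closure ⟨e, he, Or.inr (Or.inl ⟨{i}, Or.inl ⟨?_, ?_⟩,
        fun w hw => hsupp w hw⟩), fun w => rfl⟩
      · refine (Finset.sum_eq_single_of_mem i (Finset.mem_univ _) fun i' _ hi' =>
          if_neg fun h2 => hi' h2).le.trans ?_
        rw [if_pos rfl, hfin]
        omega
      · intro i' h6 i'' h7 hne
        exact absurd ((show i' = i from h6).trans (show i'' = i from h7).symm) hne
    · refine sym_mem _ (fun n h6 h7 => ?_) e fun w => ?_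
      · exact ⟨n, h6, h7, fun w => rfl⟩
      have h8 : IsRel (oneFactor Z i) fun u => e (inc i u) := by
        rw [← isRel_ext, ext_comp hsupp]
        exact he
      by_cases hw : w.1 = i
      · obtain ⟨u, rfl⟩ := inc_surj hw
        have h9 := trivial_of_types (hM _) (hΦ _) h5 (θ i) (hc i) (hs i) h8 u
        have h11 : ((e (inc i u) : ℕ) : ℤ) - (e (inc i (N202.QR.conjE u)) : ℕ) = 0 := h9
        have h10 : e (inc i (N202.QR.conjE u)) = e (inc i u) := by omega
        exact h10
      · have h9 : e w = 0 := by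
          by_contra h9
          exact hw (hsupp w h9)
        have h10 : e (N202.QR.conjE w) = 0 := by
          by_contra h10
          exact hw (hsupp (N202.QR.conjE w) h10)
        rw [h9, h10]

/-- The standard conjecture of Hodge type holds for good families of types. -/
theorem holds_of_types (hind : PairwiseIndep K) {M : ∀ i, (K i →+* ℂ) → ℤ}
    (hM : ∀ i φ, M i (ComplexEmbedding.conjugate φ) = M i φ) {g : I → ℕ}
    (hg : ∀ i, finrank ℚ (K i) = 2 * g i)
    {Φ : ∀ i, Set (K i →+* ℂ)} (hΦ : ∀ i, IsCMType (Φ i))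
    (h2 : ∀ i, 5 < g i → Φ i ∉ twoTypes (M i))
    (h1 : ∀ i i', i ≠ i' → 5 < g i → 5 < g i' → Φ i ∈ degTypes (M i) → Φ i' ∉ degTypes (M i')) :
    Holds ν K M Φ := by
  intro Ω _ _ _ _ C hC l hR hT Z Y hZ hYZ α hα A _ _ n gr deg D hX hA sp hsp
  obtain ⟨F, _, _, _, hF, κ, hκ⟩ := quadE_of_types hind hM hg hΦ h2 h1 hZ
  exact numHodge_of_hodgeType hX hA (hodge_quadE hC l hR hT hF κ hκ hYZ) hα hsp

/-- **Almost all families of types.** -/
theorem ncard_exceptional_le [Fintype I] (hind : PairwiseIndep K) {M : ∀ i, (K i →+* ℂ) → ℤ}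
    (hM : ∀ i φ, M i (ComplexEmbedding.conjugate φ) = M i φ) (hM0 : ∀ i φ, M i φ ≠ 0) {g : I → ℕ}
    (hg : ∀ i, finrank ℚ (K i) = 2 * g i) (hfin : ∀ i, (minimalSpaces (K i)).Finite) :
    (({Φ : ∀ i, Set (K i →+* ℂ) | (∀ i, IsCMType (Φ i)) ∧ ¬ Holds ν K M Φ}.ncard : ℕ) : ℝ) ≤
      2 ^ (∑ i, g i) * (∑ i with 5 < g i, boundTwo (K i) (g i) +
        ∑ T ∈ (univ.filter fun i => 5 < g i).powersetCard 2,
          ∏ i ∈ T, boundOne (K i) (g i)) := by
  classical
  have h := ncard_families_pairs K hg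
    (fun i => if 5 < g i then twoTypes (M i) else ∅) (fun i => if 5 < g i then degTypes (M i) else ∅)
    (fun i => if 5 < g i then boundTwo (K i) (g i) else 0)
    (fun i => if 5 < g i then boundOne (K i) (g i) else 0) (fun i => ?_) (fun i => ?_)
    (fun Φ => Holds ν K M Φ) fun Φ hΦ hb2 hb1 => ?_
  · refine h.trans (le_of_eq ?_)
    congr 1
    congr 1
    · rw [sum_filter]
    · symm
      refine sum_subset_zero_on_sdiff (powersetCard_mono (filter_subset _ _)) ?_ ?_
      · intro T hT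
        rw [mem_sdiff, mem_powersetCard, mem_powersetCard] at hT
        obtain ⟨⟨-, hc⟩, hT⟩ := hT
        have h5 : ¬ T ⊆ univ.filter fun i => 5 < g i := fun h6 => hT ⟨h6, hc⟩
        rw [not_subset] at h5
        obtain ⟨i, hi, h6⟩ := h5
        refine prod_eq_zero hi (if_neg fun h7 => h6 ?_)
        rw [mem_filter]
        exact ⟨mem_univ _, h7⟩
      · intro T hT
        refine prod_congr rfl fun i hi => ?_
        rw [if_pos (mem_filter.1 ((mem_powersetCard.1 hT).1 hi)).2]
  · split_ifs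
    · exact ncard_twoTypes_fin (hfin i) (hM0 i) (hM i) (hg i)
    · rw [Set.ncard_empty]
      simp
  · split_ifs
    · exact ncard_degTypes_fin (hfin i) (hM0 i) (hM i) (hg i)
    · rw [Set.ncard_empty]
      simp
  · refine holds_of_types hind hM hg hΦ (fun i hi h5 => ?_) fun i i' hne hi hi' h5 h6 => ?_
    · refine hb2 i ?_
      rw [if_pos hi]
      exact h5
    · refine hb1 i i' hne ?_ ?_
      · rw [if_pos hi]
        exact h5
      · rw [if_pos hi']
        exact h6

end Pool.Agent.L7h85.HN
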