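import Pool.Agent.N202.QR.Defs

/-!
# Relations between the Frobenius eigenvalues: independent factors, definitions
-/

set_option autoImplicit false

namespace Pool.Agent.L7h85.HN

open NumberField Pool.Agent.W547.KB Pool.Agent.W495.TA Pool.Agent.TH117.BL Pool.Agent.N202.QR Module

/-- The fields `E` and `F` are independent: for all complex embeddings `φ` of `E` and `ψ` of `F` some
automorphism of the field of complex numbers is the identity on the image of `φ` and the complex
conjugation on the image of `ψ`. -/
def Indep (E F : Type) [Field E] [Field F] : Prop :=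
  ∀ (φ : E →+* ℂ) (ψ : F →+* ℂ), ∃ σ : ℂ ≃+* ℂ,
    (∀ x, σ (φ x) = φ x) ∧ ∀ y, σ (ψ y) = starRingEnd ℂ (ψ y)

variable {p : ℕ} [Fact p.Prime] {ν : PadicAlgCl p ≃+* ℂ}

/-- The factor with the index `k`, as an abelian variety over the same finite field. -/
def oneFactor (Z : RedAV p ν) (k : Z.X.I) : RedAV p ν :=
  ⟨single (Z.X.factor k), Z.a, Z.pos, fun _ => Z.π k, fun _ => Z.frob k⟩

/-- The CM fields of any two factors of `Z` are independent, and the factors, except possibly for the
one with the index `k`, have dimension at most five. -/
structure IsIndependent (Z : RedAV p ν) (k : Z.X.I) : Prop where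
  independent : ∀ i i', i ≠ i' → Indep (Z.X.factor i).E (Z.X.factor i').E
  small : ∀ i, i ≠ k → finrank ℚ (Z.X.factor i).E ≤ 10

end Pool.Agent.L7h85.HN
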