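import Pool.Agent.L7h85.HN.BDefs

/-!
# Relations between the Frobenius eigenvalues: blocks, definitions
-/

set_option autoImplicit false

namespace Pool.Agent.L7h85.HN

open NumberField Pool.Agent.W547.KB Pool.Agent.W495.TA Pool.Agent.TH117.BL Pool.Agent.N202.QR Module

variable {p : ℕ} [Fact p.Prime] {ν : PadicAlgCl p ≃+* ℂ}

/-- The CM fields of the factors `i` and `k` are independent. -/
def Independent (Z : RedAV p ν) (i k : Z.X.I) : Prop := Indep (Z.X.factor i).E (Z.X.factor k).E

/-- The multiplicative relations between the Frobenius eigenvalues are products of elementary
relations (`IsElementary`), of relations which are invariant under the automorphisms over the field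
`K` (for the embedding `κ`), and of inverses of such relations. -/
def HasMixedRelations {K : Type} [Field K] (κ : K →+* ℂ) (Z : RedAV p ν) : Prop :=
  ∀ e : Emb Z → ℕ, IsRel Z e → (fun w => (e w : ℤ)) ∈ AddSubgroup.closure
    {d : Emb Z → ℤ | ∃ n : Emb Z → ℕ, IsRel Z n ∧ (IsElementary Z n ∨ IsInvariant κ Z n) ∧
      ∀ w, d w = n w}

/-- The factors of `Z` are divided into blocks, by the function `b`; the CM fields of factors in
different blocks are independent; the factor with the index `k` is a block; and each of the other
blocks is a good set (`IsGoodSet`: the sum of the dimensions is at most five and there are no exceptional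
pairs, or the dimensions are at most three and factors whose CM fields have the same Galois
closure are isogenous, unless the fields are Galois or one of the factors is supersingular). -/
structure IsBlockDecomposition (Z : RedAV p ν) (k : Z.X.I) (b : Z.X.I → ℕ) : Prop where
  independent : ∀ i i', b i ≠ b i' → Independent Z i i'
  alone : ∀ i, b i = b k → i = k
  good : ∀ i, i ≠ k → IsGoodSet Z {i' | b i' = b i}

end Pool.Agent.L7h85.HN
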