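import Pool.Agent.L7h85.HN.BDefs2
import Pool.Agent.N202.QR.Final
import Pool.Agent.H977R3.CM.Indep
import Pool.Agent.H977R3.CM.Aut

/-!
# Relations between the Frobenius eigenvalues: independent factors
-/

set_option autoImplicit false
set_option linter.unusedSectionVars false
set_option linter.unusedVariables false

namespace Pool.Agent.L7h85.HN

open NumberField Pool.Agent.H204R3.CM Pool.Agent.W547.KB Pool.Agent.W547.LD Pool.Agent.W547.HR
  Pool.Agent.W495.TA Module Pool.Agent.TH117.PO Pool.Agent.W976.TA Pool.Agent.W417.TA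
  Pool.Agent.TH117.BL Pool.Agent.W495.TC Pool.Agent.W495.TB Pool.Agent.TH117.F5
  Pool.Agent.N202.QR
open Pool.Agent.H977R3.CM (indep exists_gal)

noncomputable section

variable {p : ℕ} [Fact p.Prime] {ν : PadicAlgCl p ≃+* ℂ}

section sep

variable {Z : RedAV p ν} {J : Type} [Fintype J] [DecidableEq J]

/-- The part of the exponents belonging to a block. -/
def part (b : Z.X.I → J) (t : J) (e : Emb Z → ℕ) : Emb Z → ℕ :=
  fun w => if b w.1 = t then e w else 0

theorem isRel_part (b : Z.X.I → J) (hb : ∀ i k, b i ≠ b k → Independent Z i k)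
    {e : Emb Z → ℕ} (he : IsRel Z e) (t : J) : IsRel Z (part b t e) := by
  classical
  have hne : Nonempty (Z.X.prod (single (kp p))).I := ⟨Sum.inr ()⟩
  obtain ⟨L, _, _, _, _, j, hj⟩ := exists_cm (Z.X.prod (single (kp p)))
  have hZ : Big Z.X j := fun i ψ => hj (Sum.inl i) ψ
  have hfin := finite_wt j hZ
  let _ : Fintype (Wt Z.X L) := Fintype.ofFinite _
  rw [isRel_iff hZ] at he ⊢
  let Y : J → Type := fun s => {w : Wt Z.X L // b w.1 = s}
  let _ : ∀ s, Fintype (Y s) := fun s => Subtype.fintype _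
  let act : ∀ s, MulAction (L ≃ₐ[ℚ] L) (Y s) := fun s =>
    { smul := fun g w => ⟨sw g w.1, w.2⟩
      one_smul := fun w => Subtype.ext (sw_one w.1)
      mul_smul := fun g h w => Subtype.ext (sw_mul g h w.1) }
  have hsm : ∀ s (g : L ≃ₐ[ℚ] L) (w : Y s), (g • w).1 = sw g w.1 := fun s g w => rfl
  let inv : ∀ s, Y s → Y s := fun s w => ⟨cw Z w.1, w.2⟩
  let ε : ∀ s, Y s → ℤ := fun s w => tw p ν j Z.X w.1 1
  have hε : ∀ s (g : L ≃ₐ[ℚ] L) (w : Y s), ε s (g • w) = tw p ν j Z.X w.1 g := by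
    intro s g w
    change tw p ν j Z.X (sw g w.1) 1 = _
    rw [tw_sw, one_mul]
  have hmain := indep (G := L ≃ₐ[ℚ] L) Y inv ε ?_ ?_ ?_ (fun s w => (e (toEmb j Z w.1) : ℤ)) ?_ t
  · intro σ
    rw [← hmain σ]
    have h1 : ∀ w : Wt Z.X L, ((part b t e (toEmb j Z w) : ℕ) : ℤ) * tw p ν j Z.X w σ =
        if b w.1 = t then (e (toEmb j Z w) : ℤ) * tw p ν j Z.X w σ else 0 := by
      intro w
      unfold part
      change (((if b w.1 = t then e (toEmb j Z w) else 0 : ℕ) : ℤ)) * _ = _
      split_ifs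
      · rfl
      · simp
    rw [Finset.sum_congr rfl fun w _ => h1 w, ← Finset.sum_filter,
      Finset.sum_subtype (Finset.univ.filter fun w : Wt Z.X L => b w.1 = t)
        (p := fun w : Wt Z.X L => b w.1 = t) (fun w => by simp)]
    exact Finset.sum_congr rfl fun w _ => by rw [hε]
  · intro s w
    change tw p ν j Z.X (cw Z w.1) 1 = -tw p ν j Z.X w.1 1
    rw [tw_cw, Pi.neg_apply]
  · intro g s w
    exact Subtype.ext (cw_sw g w.1 j).symm
  · rintro s s' hs ⟨w, hw⟩ ⟨v, hv⟩
    obtain ⟨σ, h1, h2⟩ := hb w.1 v.1 (by rw [hw, hv]; exact hs) (j.comp w.2) (j.comp v.2)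
    obtain ⟨g, hg⟩ := exists_gal j σ
    refine ⟨g, Subtype.ext ?_, Subtype.ext ?_⟩
    · change sw g w = w
      refine Sigma.ext rfl (heq_of_eq ?_)
      ext x
      apply j.injective
      change j (g (w.2 x)) = j (w.2 x)
      rw [← hg]
      exact h1 x
    · change sw g v = cw Z v
      apply (toEmb_bijective (j := j) hZ).1
      rw [toEmb_cw]
      refine Sigma.ext rfl (heq_of_eq ?_)
      ext x
      change j (g (v.2 x)) = _
      rw [← hg]
      exact h2 x
  · intro g
    have h1 : ∑ s, ∑ w : Y s, (e (toEmb j Z w.1) : ℤ) * ε s (g • w) =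
        ∑ w : Wt Z.X L, (e (toEmb j Z w) : ℤ) * tw p ν j Z.X w g := by
      rw [← Finset.sum_fiberwise Finset.univ (fun w : Wt Z.X L => b w.1)]
      refine Finset.sum_congr rfl fun s _ => ?_
      rw [Finset.sum_subtype (Finset.univ.filter fun w : Wt Z.X L => b w.1 = s)
        (p := fun w : Wt Z.X L => b w.1 = s) (fun w => by simp)]
      exact Finset.sum_congr rfl fun w _ => by rw [hε]
    rw [h1]
    exact he g

end sep

end

end Pool.Agent.L7h85.HN
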