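import Pool.Agent.L7h85.HN.Block

/-!
# Relations between the Frobenius eigenvalues: one factor
-/

set_option autoImplicit false
set_option linter.unusedSectionVars false
set_option linter.unusedVariables false

namespace Pool.Agent.L7h85.HN

open NumberField Pool.Agent.H204R3.CM Pool.Agent.W547.KB Pool.Agent.W547.LD Pool.Agent.W547.HR
  Pool.Agent.W495.TA Module Pool.Agent.TH117.PO Pool.Agent.W976.TA Pool.Agent.W417.TA
  Pool.Agent.TH117.BL Pool.Agent.W495.TC Pool.Agent.W495.TB Pool.Agent.TH117.F5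
  Pool.Agent.N202.QR

noncomputable section

variable {p : ℕ} [Fact p.Prime] {ν : PadicAlgCl p ≃+* ℂ} {Z : RedAV p ν} {k : Z.X.I}

/-- The eigenvalues of one factor. -/
def inc (k : Z.X.I) (u : Emb (oneFactor Z k)) : Emb Z := ⟨k, u.2⟩

theorem inc_injective : Function.Injective (inc (Z := Z) k) := by
  rintro ⟨⟨⟩, φ⟩ ⟨⟨⟩, φ'⟩ h
  have h1 : φ = φ' := eq_of_heq (Sigma.mk.inj_iff.1 h).2
  rw [h1]

theorem inc_surj {w : Emb Z} (h : w.1 = k) : ∃ u, inc k u = w := by
  obtain ⟨i, φ⟩ := w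
  change i = k at h
  subst h
  exact ⟨⟨(), φ⟩, rfl⟩

theorem inc_ne {w : Emb Z} (h : w.1 ≠ k) : ¬ ∃ u, inc k u = w := by
  rintro ⟨u, rfl⟩
  exact h rfl

/-- Extension by zero. -/
def ext {M : Type} [Zero M] (n : Emb (oneFactor Z k) → M) : Emb Z → M :=
  Function.extend (inc k) n 0

theorem ext_inc {M : Type} [Zero M] (n : Emb (oneFactor Z k) → M) (u : Emb (oneFactor Z k)) :
    ext n (inc k u) = n u := inc_injective.extend_apply n 0 u

theorem ext_of_ne {M : Type} [Zero M] (n : Emb (oneFactor Z k) → M) {w : Emb Z} (h : w.1 ≠ k) :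
    ext n w = 0 := Function.extend_apply' n (0 : Emb Z → M) w (inc_ne h)

theorem ext_cast (n : Emb (oneFactor Z k) → ℕ) (w : Emb Z) :
    ext (fun u => (n u : ℤ)) w = (ext n w : ℕ) := by
  by_cases h : w.1 = k
  · obtain ⟨u, rfl⟩ := inc_surj h
    rw [ext_inc, ext_inc]
  · rw [ext_of_ne _ h, ext_of_ne _ h]
    rfl

theorem sum_ext (n : Emb (oneFactor Z k) → ℕ) : ∑ w, ext n w = ∑ u, n u :=
  (Fintype.sum_of_injective (inc k) inc_injective _ _ (fun w hw => by
    refine Function.extend_apply' n (0 : Emb Z → ℕ) w ?_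
    rintro ⟨u, rfl⟩
    exact hw ⟨u, rfl⟩) fun u => (ext_inc n u).symm).symm

theorem isRel_ext (n : Emb (oneFactor Z k) → ℕ) : IsRel Z (ext n) ↔ IsRel (oneFactor Z k) n := by
  have h1 : ∏ w, eig Z w ^ ext n w = ∏ u, eig (oneFactor Z k) u ^ n u := by
    refine (Fintype.prod_of_injective (inc k) inc_injective _ _ (fun w hw => ?_) fun u => ?_).symm
    · have h2 : ext n w = 0 := by
        refine Function.extend_apply' n (0 : Emb Z → ℕ) w ?_
        rintro ⟨u, rfl⟩
        exact hw ⟨u, rfl⟩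
      rw [h2, pow_zero]
    · rw [ext_inc]
      rfl
  unfold IsRel
  rw [sum_ext, h1]
  rfl

theorem ext_comp {e : Emb Z → ℕ} (he : ∀ w, e w ≠ 0 → w.1 = k) :
    ext (fun u => e (inc k u)) = e := by
  funext w
  by_cases h : w.1 = k
  · obtain ⟨u, rfl⟩ := inc_surj h
    rw [ext_inc]
  · rw [ext_of_ne _ h]
    by_contra h1
    exact h (he w fun h2 => h1 h2.symm)

theorem isInvariant_ext {K : Type} [Field K] {κ : K →+* ℂ} {n : Emb (oneFactor Z k) → ℕ}
    (h : IsInvariant κ (oneFactor Z k) n) : IsInvariant κ Z (ext n) := by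
  intro σ hσ w
  by_cases hw : w.1 = k
  · obtain ⟨u, rfl⟩ := inc_surj hw
    have h1 : (⟨(inc k u).1, (σ : ℂ →+* ℂ).comp (inc k u).2⟩ : Emb Z) =
        inc k ⟨u.1, (σ : ℂ →+* ℂ).comp u.2⟩ := rfl
    rw [h1, ext_inc, ext_inc]
    exact h σ hσ u
  · rw [ext_of_ne _ hw, ext_of_ne _ (w := ⟨w.1, (σ : ℂ →+* ℂ).comp w.2⟩) hw]

/-- The Weil datum of one factor. -/
def extW (W : WeilDatum (oneFactor Z k)) (h : () ∈ W.S) : WeilDatum Z where
  K := W.K
  quadratic := W.quadratic
  κ := W.κ
  S := {k}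
  ι := fun i hi => by
    have h1 : i = k := hi
    subst h1
    exact W.ι () h

theorem isPos_extW (W : WeilDatum (oneFactor Z k)) (h : () ∈ W.S) (u : Emb (oneFactor Z k)) :
    (extW W h).IsPos (inc k u) ↔ W.IsPos u := by
  constructor
  · rintro ⟨h1, h2⟩
    exact ⟨h, h2⟩
  · rintro ⟨h1, h2⟩
    exact ⟨rfl, h2⟩

theorem isElementary_ext {n : Emb (oneFactor Z k) → ℕ} (h : IsElementary (oneFactor Z k) n) :
    IsElementary Z (ext n) := by
  classical
  by_cases hn : n = 0
  · left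
    rw [sum_ext, hn]
    simp
  obtain ⟨u0, hu0⟩ : ∃ u, n u ≠ 0 := by
    by_contra h1
    push Not at h1
    exact hn (funext h1)
  have hsupp : ∀ w, ext n w ≠ 0 → w.1 ∈ ({k} : Set Z.X.I) := by
    intro w hw
    by_contra h1
    exact hw (ext_of_ne n h1)
  rcases h with h | ⟨S, hS, hs⟩ | ⟨W, hW, hnp, hd⟩
  · left
    rwa [sum_ext]
  · right
    left
    have hu : () ∈ S := hs u0 hu0
    have h1 : finrank ℚ (Z.X.factor k).E ≤ 10 := by
      rcases hS with ⟨h1, -⟩ | ⟨h1, -⟩
      · refine le_trans ?_ h1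
        refine le_trans (le_of_eq ?_) (Finset.single_le_sum (fun _ _ => Nat.zero_le _)
          (Finset.mem_univ (() : (oneFactor Z k).X.I)))
        exact (if_pos hu).symm
      · have := h1 () hu
        change finrank ℚ (Z.X.factor k).E ≤ 6 at this
        omega
    refine ⟨{k}, Or.inl ⟨?_, ?_⟩, hsupp⟩
    · refine (Finset.sum_eq_single_of_mem k (Finset.mem_univ _) fun i _ hi =>
        if_neg fun h2 => hi h2).le.trans ?_
      rw [if_pos rfl]
      exact h1
    · intro i hi i' hi' hne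
      have e1 : i = k := hi
      have e2 : i' = k := hi'
      exact absurd (e1.trans e2.symm) hne
  · right
    right
    have hu : () ∈ W.S := by
      have h1 := hW u0
      by_contra h2
      rw [if_neg (fun h3 => h2 h3.1)] at h1
      exact hu0 h1
    refine ⟨extW W hu, ?_, ?_, ?_⟩
    · intro w
      by_cases h1 : w.1 = k
      · obtain ⟨u, rfl⟩ := inc_surj h1
        rw [ext_inc, hW u]
        have h2 := isPos_extW W hu u
        simp only [h2]
      · rw [ext_of_ne _ h1, if_neg]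
        rintro ⟨h2, h3⟩
        exact h1 h2
    · intro w w' hw hw' hww s hs
      obtain ⟨u, rfl⟩ := inc_surj (k := k) hw.1
      obtain ⟨u', rfl⟩ := inc_surj (k := k) hw'.1
      exact hnp u u' ((isPos_extW W hu u).1 hw) ((isPos_extW W hu u').1 hw') rfl s hs
    · rw [sum_ext]
      exact hd

/-- The relations of one factor. -/
theorem mem_of_one {K : Type} [Field K] {κ : K →+* ℂ} (h : HasQuadRelE κ (oneFactor Z k))
    {e : Emb Z → ℕ} (he : IsRel Z e) (hk : ∀ w, e w ≠ 0 → w.1 = k) :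
    (fun w => (e w : ℤ)) ∈ AddSubgroup.closure
      {d : Emb Z → ℤ | ∃ n : Emb Z → ℕ, IsRel Z n ∧ (IsElementary Z n ∨ IsInvariant κ Z n) ∧
        ∀ w, d w = n w} := by
  let F : (Emb (oneFactor Z k) → ℤ) →+ (Emb Z → ℤ) :=
    { toFun := ext
      map_zero' := by
        funext w
        by_cases hw : w.1 = k
        · obtain ⟨u, rfl⟩ := inc_surj hw
          rw [ext_inc]
          rfl
        · rw [ext_of_ne _ hw]
          rfl
      map_add' := by
        intro f g
        funext w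
        rw [Pi.add_apply]
        by_cases hw : w.1 = k
        · obtain ⟨u, rfl⟩ := inc_surj hw
          rw [ext_inc, ext_inc, ext_inc]
          rfl
        · rw [ext_of_ne _ hw, ext_of_ne _ hw, ext_of_ne _ hw]
          rfl }
  have h0 : IsRel (oneFactor Z k) fun u => e (inc k u) := by
    rw [← isRel_ext, ext_comp hk]
    exact he
  have h1 := h _ h0
  have h2 : (fun w => (e w : ℤ)) = F fun u => (e (inc k u) : ℤ) := by
    funext w
    change (e w : ℤ) = ext (fun u => (e (inc k u) : ℤ)) w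
    rw [ext_cast (fun u => e (inc k u)), ext_comp hk]
  rw [h2]
  have h3 := AddSubgroup.mem_map_of_mem F h1
  rw [AddMonoidHom.map_closure] at h3
  refine AddSubgroup.closure_mono ?_ h3
  rintro _ ⟨d, ⟨n, hn1, hn2, hn3⟩, rfl⟩
  refine ⟨ext n, (isRel_ext n).2 hn1, hn2.imp isElementary_ext isInvariant_ext, fun w => ?_⟩
  change ext d w = _
  rw [← ext_cast, show d = fun u => (n u : ℤ) from funext hn3]

end

end Pool.Agent.L7h85.HN
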