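import Pool.Agent.L7h85.HN.Spec

/-!
# The numerical Hodge standard conjecture over arbitrary fields
-/

set_option autoImplicit false

namespace Pool.Agent.L7h85.HN

open NumberField Pool.Agent.H204R3.CM Pool.Agent.W547.KB Pool.Agent.W547.LD Pool.Agent.W547.HR
  Pool.Agent.W495.TA Pool.Agent.TH117.PO Module Pool.Agent.TH117.BL Pool.Agent.Y137.HS
  Pool.Agent.Y137.HD

universe u

variable {p : ℕ} [Fact p.Prime] {ν : PadicAlgCl p ≃+* ℂ} {Ω : Type} [Field Ω] [CharZero Ω]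
  {C : (Y : RedAV p ν) → (κ : Type) → ((TM Ω Y) [⋀^κ]→ₗ[Ω] Ω) → Prop}

theorem ne_zero_of_num {Y : RedAV p ν} {κ : Type} [Fintype κ] [DecidableEq κ]
    {z : (TM Ω Y) [⋀^κ]→ₗ[Ω] Ω} (h : ¬ IsNumTrivial Ω C z) : z ≠ 0 := by
  rintro rfl
  refine h fun κ' _ _ y _ _ v => ?_
  unfold altSum
  refine Finset.sum_eq_zero fun σ _ => ?_
  have h1 : times (res (0 : (TM Ω Y) [⋀^κ]→ₗ[Ω] Ω)) (res y) = 0 := by
    funext u
    exact zero_mul _
  rw [h1]
  simp

variable {A : Type u} [CommRing A] [Algebra ℚ A] {n : ℕ} {gr : ℕ → Submodule ℚ A} {deg : A →ₗ[ℚ] ℚ}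
  {D : A} {Y : RedAV p ν} {α : Y.X.H1} {sp : ∀ r : ℕ, A → Form Ω Y r}

/-- **Abelian varieties of dimension at most five, and products of small factors.** -/
theorem numHodge_small [IsAlgClosed Ω] (hC : IsCycleSystemS Ω C) (hR : IsRosatiPositive Ω C)
    (hT : AreTate Ω C) (hX : IsCycleRing n gr deg D) (hA : LefschetzA n gr D)
    (hY : n ≤ 5 ∨ ∃ Z : RedAV p ν, SmallFactors Z ∧ IsPowersTimesSupersingular Z Y)
    (hα : IsPolar Y.X α) (hsp : Specializes C n gr D Y α sp) : NumHodge n gr deg D := by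
  refine numHodge_of_specializes hsp hX hA fun r m hrm z hz hnt hprim => ?_
  refine hodgeStandard hC hR hT ?_ hα hrm hz (ne_zero_of_num hnt) hprim
  rcases hY with h | ⟨Z, h, h'⟩
  · left
    have := hsp.dim
    omega
  · exact Or.inr ⟨Z, h.elementary, h'⟩

end Pool.Agent.L7h85.HN
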