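import Pool.Agent.L7h85.HN.Defs
import Pool.Agent.Y137.HD.Main

/-!
# Positivity and specialization
-/

set_option autoImplicit false

namespace Pool.Agent.L7h85.HN

open NumberField Pool.Agent.H204R3.CM Pool.Agent.W547.KB Pool.Agent.W547.LD Pool.Agent.W547.HR
  Pool.Agent.W495.TA Pool.Agent.TH117.PO Module Equiv Pool.Agent.Y137.HS Pool.Agent.Y137.HD
open scoped TensorProduct

universe u

section ring

variable {A : Type u} [CommRing A] [Algebra ℚ A] {n : ℕ} {gr : ℕ → Submodule ℚ A}
  {deg : A →ₗ[ℚ] ℚ} {D : A}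

/-- **Reduction to the classes which are primitive for homological equivalence.** -/
theorem numHodge_of_hom (hR : IsCycleRing n gr deg D) (hA : LefschetzA n gr D)
    (hpos : ∀ j m : ℕ, 2 * j + m = n → ∀ z ∈ gr j, D ^ (m + 1) * z = 0 →
      ¬ NumZero n gr deg j z → 0 < (-1 : ℚ) ^ j * deg (z * (z * D ^ m))) :
    NumHodge n gr deg D := by
  intro j m hjm z hz hprim hnz
  rcases Nat.eq_zero_or_pos j with rfl | hj
  · rw [mul_assoc]
    refine hpos 0 m hjm z hz ?_ hnz
    exact hR.bound (by omega) (hR.pow_mul_mem (m + 1) hz)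
  · obtain ⟨i, rfl⟩ : ∃ i, j = i + 1 := ⟨j - 1, by omega⟩
    -- the Lefschetz decomposition
    obtain ⟨y, hy, he⟩ := hA i (by omega) (D ^ (m + 1) * z) (by
      have := hR.pow_mul_mem (m + 1) hz
      rwa [show m + 1 + (i + 1) = n - i by omega] at this)
    have hy0 : NumZero n gr deg i y := by
      intro w hw
      obtain ⟨w', hw', rfl⟩ := hA i (by omega) w hw
      have h1 : y * (D ^ (n - 2 * i) * w') = z * D ^ (m + 1) * w' := by
        rw [← mul_assoc, mul_comm y, he]
        ring
      rw [h1]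
      refine hprim hj w' ?_
      rwa [show n - (i + 1 + m + 1) = i by omega]
    have hDy : ∀ w ∈ gr (n - (i + 1)), deg (D * y * w) = 0 := by
      intro w hw
      rw [mul_right_comm, mul_comm]
      refine hy0 _ ?_
      have := hR.mul_mem hR.divisor hw
      rwa [show 1 + (n - (i + 1)) = n - i by omega] at this
    have hDym : D * y ∈ gr (i + 1) := by
      have := hR.mul_mem hR.divisor hy
      rwa [show 1 + i = i + 1 by omega] at this
    set z0 := z - D * y with hz0
    have hz0m : z0 ∈ gr (i + 1) := Submodule.sub_mem _ hz hDym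
    have hz0p : D ^ (m + 1) * z0 = 0 := by
      rw [hz0, mul_sub, ← he, show n - 2 * i = m + 2 by omega]
      ring
    have hz0n : ¬ NumZero n gr deg (i + 1) z0 := by
      intro h
      apply hnz
      intro w hw
      have h1 := h w hw
      rw [hz0, sub_mul, map_sub, hDy w hw, sub_zero] at h1
      exact h1
    have h2 := hpos (i + 1) m hjm z0 hz0m hz0p hz0n
    have h3 : deg (z0 * (z0 * D ^ m)) = deg (z * z * D ^ m) := by
      have e1 : z * z * D ^ m = z0 * (z0 * D ^ m) + (D * y) * ((z0 + z) * D ^ m) := by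
        rw [hz0]
        ring
      rw [e1, map_add, hDy, add_zero]
      have h4 : z0 + z ∈ gr (i + 1) := Submodule.add_mem _ hz0m hz
      have h5 := hR.pow_mul_mem m h4
      rw [mul_comm] at h5
      rwa [show m + (i + 1) = n - (i + 1) by omega] at h5
    rwa [h3] at h2

end ring

variable {p : ℕ} [Fact p.Prime] {ν : PadicAlgCl p ≃+* ℂ} {Ω : Type} [Field Ω] [CharZero Ω]
  {C : (Y : RedAV p ν) → (κ : Type) → ((TM Ω Y) [⋀^κ]→ₗ[Ω] Ω) → Prop}
  {A : Type u} [CommRing A] [Algebra ℚ A] {n : ℕ} {gr : ℕ → Submodule ℚ A} {deg : A →ₗ[ℚ] ℚ} {D : A}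
  {Y : RedAV p ν} {α : Y.X.H1} {sp : ∀ r : ℕ, A → Form Ω Y r}

/-- **Positivity and specialization**, for classes primitive for homological equivalence. -/
theorem pos_of_specializes (h : Specializes C n gr D Y α sp) (hR : IsCycleRing n gr deg D)
    (hpos : ∀ r m : ℕ, 2 * (2 * r + m) = finrank ℚ Y.X.H1 →
      ∀ z : (TM Ω Y) [⋀^Fin r × Fin 2]→ₗ[Ω] Ω, C Y (Fin r × Fin 2) z → ¬ IsNumTrivial Ω C z →
        IsPrim α m z → IsPosClass α m z)
    {j m : ℕ} (hjm : 2 * j + m = n) {a : A} (ha : a ∈ gr j) (hprim : D ^ (m + 1) * a = 0)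
    (hnz : ¬ NumZero n gr deg j a) : 0 < (-1 : ℚ) ^ j * deg (a * (a * D ^ m)) := by
  have hzero : ∀ i v, res (sp i (0 : A)) v = 0 := by
    intro i v
    have h1 := h.smul i 0 0 (gr i).zero_mem v
    rw [smul_zero, Rat.cast_zero, zero_mul] at h1
    exact h1
  have hfp : IsPrim α m (show (TM Ω Y) [⋀^Fin j × Fin 2]→ₗ[Ω] Ω from sp j a) := by
    intro v
    obtain ⟨c, hc, h1⟩ := h.mul_pow hR ha (m + 1)
    have h3 := h1 (fun k => v ((join j (m + 1)).symm k))
    rw [mul_comm a, hprim, hzero] at h3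
    have h5 : (fun k => (fun k => v ((join j (m + 1)).symm k)) (join j (m + 1) k)) = v := by
      funext k
      simp
    rw [h5] at h3
    have hc' : (c : Ω) ≠ 0 := by exact_mod_cast hc.ne'
    exact (mul_eq_zero.1 h3.symm).resolve_left hc'
  have hnum : ¬ IsNumTrivial Ω C (show (TM Ω Y) [⋀^Fin j × Fin 2]→ₗ[Ω] Ω from sp j a) := by
    intro hnum
    apply hnz
    intro w hw
    have hw' := h.cycle (n - j) w hw
    have h0 : a * w = 0 := by
      refine h.inj (j + (n - j)) _ (hR.mul_mem ha hw) fun v => ?_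
      have h2 := h.mul j (n - j) a ha w hw v
      have h3 := hnum (Fin (n - j) × Fin 2) (sp (n - j) w) hw' (by
        rw [Fintype.card_prod, Fintype.card_prod, Fintype.card_fin, Fintype.card_fin,
          Fintype.card_fin, ← h.dim]
        omega) (fun k => v (join j (n - j) k))
      have h4 : altSum (times (sp j a).val (sp (n - j) w).val)
          (fun k => v (join j (n - j) k)) = 0 := h3
      rw [h4] at h2
      have hf : (((2 * j).factorial * (2 * (n - j)).factorial : ℕ) : Ω) ≠ 0 := by
        exact_mod_cast (fact_pos j (n - j)).ne'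
      exact (mul_eq_zero.1 h2).resolve_left hf
    rw [h0, map_zero]
  obtain ⟨c, hc, h1⟩ := hpos j m (by rw [← h.dim, hjm]) _ (h.cycle j a ha) hnum hfp
  obtain ⟨c1, hc1, h2⟩ := h.sq_mul_pow hR ha m
  obtain ⟨c2, hc2, h3⟩ := h.pow hR (j + (j + m))
  have hmem : a * (a * D ^ m) ∈ gr (j + (j + m)) := hR.mul_mem ha (hR.mul_mem ha (hR.pow_mem m))
  -- the class is a multiple of the top power
  set q : ℚ := (-1) ^ j * (c1 * c / c2) with hq
  have hkey : a * (a * D ^ m) = q • D ^ (j + (j + m)) := by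
    have h6 : a * (a * D ^ m) + (-q) • D ^ (j + (j + m)) = 0 := by
      refine h.inj _ _ (Submodule.add_mem _ hmem (Submodule.smul_mem _ _ (hR.pow_mem _)))
        fun v => ?_
      rw [h.add _ _ hmem _ (Submodule.smul_mem _ _ (hR.pow_mem _)), h.smul _ _ _ (hR.pow_mem _)]
      change res (sp (j + (j + m)) (a * (a * D ^ m))) v +
        ((-q : ℚ) : Ω) * res (sp (j + (j + m)) (D ^ (j + (j + m)))) v = 0
      rw [h2, h3, ← pow_split]
      have h4 := h1 (fun k => v (join j (j + m) (Sum.map id (join j m) k)))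
      have h5 : altSum (times (res (sp j a)) (times (res (sp j a))
          (powE (castE Ω (riemannForm Y.X α)) m)))
          (fun k => v (join j (j + m) (Sum.map id (join j m) k))) =
          (-1) ^ j * ((c : Ω) * altSum (times (powE (castE Ω (riemannForm Y.X α)) j)
            (times (powE (castE Ω (riemannForm Y.X α)) j)
              (powE (castE Ω (riemannForm Y.X α)) m)))
            (fun k => v (join j (j + m) (Sum.map id (join j m) k)))) := by
        rw [← h4, ← mul_assoc, ← pow_add, ← two_mul, pow_mul, neg_one_sq, one_pow, one_mul]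
      rw [h5, hq]
      have hc2' : (c2 : Ω) ≠ 0 := by exact_mod_cast hc2.ne'
      push_cast
      field_simp
      ring
    rw [neg_smul, add_neg_eq_zero] at h6
    exact h6
  have hD := hR.ample
  rw [hkey, map_smul, smul_eq_mul, hq, show j + (j + m) = n by omega, ← mul_assoc, ← mul_assoc,
    ← pow_add, ← two_mul, pow_mul, neg_one_sq, one_pow, one_mul]
  positivity

/-- **The numerical Hodge standard conjecture and specialization.** -/
theorem numHodge_of_specializes (h : Specializes C n gr D Y α sp) (hR : IsCycleRing n gr deg D)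
    (hA : LefschetzA n gr D)
    (hpos : ∀ r m : ℕ, 2 * (2 * r + m) = finrank ℚ Y.X.H1 →
      ∀ z : (TM Ω Y) [⋀^Fin r × Fin 2]→ₗ[Ω] Ω, C Y (Fin r × Fin 2) z → ¬ IsNumTrivial Ω C z →
        IsPrim α m z → IsPosClass α m z) : NumHodge n gr deg D :=
  numHodge_of_hom hR hA fun _ _ hjm _ hz hp hn => pos_of_specializes h hR hpos hjm hz hp hn

end Pool.Agent.L7h85.HN
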